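import Pool.Agent.T2H72.VMV.Red

/-! # All solutions -/

set_option autoImplicit false

namespace Pool.Agent.T2H72.VMV

open Finset
open Pool.Agent.W89.VP (VS VD VN)

lemma nondiag_pow (s k : ℕ) (hks : k < s) (j : ℕ) (hj : j ≤ s)
    (h : 4 * ((s : ℝ) - k) * k + 2 * ((s : ℝ) - k) * ((s : ℝ) - k - 1) + 5 < ((k : ℝ) + 1 - (s - j : ℕ)) ^ 2)
    (hkj : s - j ≤ k + 1) :
    ∃ C : ℝ, 0 ≤ C ∧ ∀ N : ℕ, 1 ≤ N → ((VN s k N).card : ℝ) ≤ C * (N : ℝ) ^ j := by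
  set Y : ℝ := 4 * ((s : ℝ) - k) * k + 2 * ((s : ℝ) - k) * ((s : ℝ) - k - 1) + 5 with hY
  have hpos : (0 : ℝ) ≤ (k : ℝ) + 1 - (s - j : ℕ) := by
    have : ((s - j : ℕ) : ℝ) ≤ ((k + 1 : ℕ) : ℝ) := by exact_mod_cast hkj
    push_cast at this
    linarith
  have hds : (k : ℝ) + 1 ≤ s := by exact_mod_cast hks
  have hk0 : (0 : ℝ) ≤ k := by positivity
  have hY0 : 0 ≤ Y := by
    rw [hY]
    have h1 : 0 ≤ ((s : ℝ) - k) * k := mul_nonneg (by linarith) hk0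
    have h2 : 0 ≤ ((s : ℝ) - k) * ((s : ℝ) - k - 1) := mul_nonneg (by linarith) (by linarith)
    linarith
  have hlt : Real.sqrt Y < (k : ℝ) + 1 - (s - j : ℕ) := by
    rw [Real.sqrt_lt hY0 hpos]
    exact h
  obtain ⟨C, hC, hh⟩ := nondiag s k ((k : ℝ) + 1 - (s - j : ℕ) - Real.sqrt Y) (by linarith)
  refine ⟨C, hC, fun N hN => (hh N hN).trans (le_of_eq ?_)⟩
  rw [← hY, ← Real.rpow_natCast, Nat.cast_sub hj]
  congr 2
  ring

/-- the natural number inequality, cast -/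
lemma cast_ineq (s k : ℕ) (hks : k < s) (m : ℕ) (h : 4 * (s - k) * k + 2 * (s - k) * (s - k - 1) + 5 < m ^ 2) :
    4 * ((s : ℝ) - k) * k + 2 * ((s : ℝ) - k) * ((s : ℝ) - k - 1) + 5 < (m : ℝ) ^ 2 := by
  obtain ⟨e, rfl⟩ : ∃ e, s = k + (e + 1) := ⟨s - k - 1, by omega⟩
  have h1 : k + (e + 1) - k = e + 1 := by omega
  have h2 : e + 1 - 1 = e := by omega
  rw [h1, h2] at h
  have h3 : ((4 * (e + 1) * k + 2 * (e + 1) * e + 5 : ℕ) : ℝ) < ((m ^ 2 : ℕ) : ℝ) := by exact_mod_cast h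
  push_cast at h3 ⊢
  nlinarith

theorem asym (s k : ℕ) (hks : k < s) (h : 4 * (s - k) * k + 2 * (s - k) * (s - k - 1) + 5 < k ^ 2) :
    ∃ C : ℝ, ∀ N : ℕ, 1 ≤ N →
      |((VS s k N).card : ℝ) - (s.factorial : ℝ) * (N : ℝ) ^ s| ≤ C * (N : ℝ) ^ (s - 1) := by
  classical
  have h1 := cast_ineq s k hks k h
  have h2 : s - (s - 1) = 1 := by omega
  obtain ⟨C3, hC3, h6⟩ := nondiag_pow s k hks (s - 1) (by omega) (by
    rw [h2]; push_cast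
    have : ((k : ℝ) + 1 - 1) = k := by ring
    rw [this]; exact h1) (by omega)
  obtain ⟨C4, hC4, h4⟩ := Pool.Agent.W346.PV.Diag.main s (by omega)
  refine ⟨C3 + C4, fun N hN => ?_⟩
  have hN0 : (0 : ℝ) < N := by positivity
  have hsplit := Pool.Agent.TH900.VPS.split_VS s k N
  have h5 := h4 N hN
  have h6' := h6 N hN
  rw [hsplit]
  push_cast
  have h7 : (0 : ℝ) ≤ ((VN s k N).card : ℝ) := by positivity
  rw [abs_le] at h5 ⊢
  constructor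
  · nlinarith [h5.1, h5.2]
  · nlinarith [h5.1, h5.2]

theorem upper (s k : ℕ) (hks : k < s)
    (h : 4 * (s - k) * k + 2 * (s - k) * (s - k - 1) + 5 < (k + 1) ^ 2) :
    ∃ C : ℝ, ∀ N : ℕ, 1 ≤ N → ((VS s k N).card : ℝ) ≤ C * (N : ℝ) ^ s := by
  classical
  have h1 := cast_ineq s k hks (k + 1) h
  obtain ⟨C3, hC3, h6⟩ := nondiag_pow s k hks s le_rfl (by
    rw [Nat.sub_self, Nat.cast_zero, sub_zero]
    push_cast at h1
    exact h1) (by omega)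
  obtain ⟨C4, hC4, h4⟩ := Pool.Agent.W346.PV.Diag.main s (by omega)
  refine ⟨C3 + (s.factorial + C4), fun N hN => ?_⟩
  have hN1 : (1 : ℝ) ≤ N := by exact_mod_cast hN
  have h5 := h4 N hN
  have h6' := h6 N hN
  rw [Pool.Agent.TH900.VPS.split_VS s k N]
  push_cast
  have h7 : (N : ℝ) ^ (s - 1) ≤ (N : ℝ) ^ s := pow_le_pow_right₀ hN1 (by omega)
  rw [abs_le] at h5
  nlinarith [h5.1, h5.2]

end Pool.Agent.T2H72.VMV
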