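import Mathlib

/-! # Sublattices of `ℤ^d`, boxes, and the step inequality for the number of lattice points in a box -/

set_option autoImplicit false

namespace Pool.Agent.T2H72.VMV

open Finset

variable {d : ℕ}

/-- the value at `z` of the polynomial with coefficients `q` -/
def ev (z : ℤ) : (Fin d → ℤ) →+ ℤ where
  toFun q := ∑ l, q l * z ^ (l : ℕ)
  map_zero' := by simp
  map_add' q q' := by
    rw [← Finset.sum_add_distrib]
    exact Finset.sum_congr rfl (fun l _ => by simp [add_mul])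

lemma ev_apply (z : ℤ) (q : Fin d → ℤ) : ev z q = ∑ l, q l * z ^ (l : ℕ) := rfl

/-- the vector with rational entries -/
def toQ (q : Fin d → ℤ) : Fin d → ℚ := fun l => (q l : ℚ)

/-- the box -/
def bx (N R : ℕ) (q : Fin d → ℤ) : Prop := ∀ l, |q l| * (N : ℤ) ^ (l : ℕ) ≤ R

open scoped Classical in
/-- the points of `L` in the box -/
noncomputable def GF (L : AddSubgroup (Fin d → ℤ)) (N R : ℕ) : Finset (Fin d → ℤ) :=
  (Fintype.piFinset fun _ : Fin d => Finset.Icc (-(R : ℤ)) R).filter (fun q => q ∈ L ∧ bx N R q)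

lemma mem_GF {L : AddSubgroup (Fin d → ℤ)} {N R : ℕ} (hN : 1 ≤ N) {q : Fin d → ℤ} :
    q ∈ GF L N R ↔ q ∈ L ∧ bx N R q := by
  classical
  rw [GF, Finset.mem_filter, Fintype.mem_piFinset]
  refine ⟨fun h => h.2, fun h => ⟨fun l => ?_, h⟩⟩
  rw [Finset.mem_Icc, ← abs_le]
  have h1 : (1 : ℤ) ≤ (N : ℤ) ^ (l : ℕ) := one_le_pow₀ (by exact_mod_cast hN)
  have h2 := h.2 l
  have h3 : 0 ≤ |q l| := abs_nonneg _
  nlinarith

/-- the rational span of the points of `L` in the box -/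
noncomputable def WW (L : AddSubgroup (Fin d → ℤ)) (N R : ℕ) : Submodule ℚ (Fin d → ℚ) :=
  Submodule.span ℚ (toQ '' (GF L N R : Set (Fin d → ℤ)))

/-- the step inequality -/
theorem step (L L' : AddSubgroup (Fin d → ℤ)) (hLL : L' ≤ L) (N R : ℕ) (hN : 1 ≤ N)
    (φ : (Fin d → ℤ) →+ ℤ) (M D : ℤ) (I : ℕ) (hM : ∀ q ∈ L', M ∣ φ q) (w : Fin d → ℤ) (hw : w ∈ L)
    (hwW : toQ w ∈ WW L' N R) (hφ : φ w = D) (hI : ∀ a : ℤ, M ∣ a * D → |a| < I → a = 0) :
    I * (GF L' N R).card ≤ (GF L N ((d + 1) * R)).card := by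
  classical
  obtain ⟨κ, a, ha, hspan, hli⟩ := exists_linearIndependent' ℚ
    (fun q : GF L' N R => toQ (q : Fin d → ℤ))
  have : Finite κ := Finite.of_injective a ha
  have : Fintype κ := Fintype.ofFinite κ
  have hcard : Fintype.card κ ≤ d := by
    have := hli.fintype_card_le_finrank
    simpa using this
  have hmem : toQ w ∈ Submodule.span ℚ
      (Set.range ((fun q : GF L' N R => toQ (q : Fin d → ℤ)) ∘ a)) := by
    rw [hspan]
    have e : Set.range (fun q : GF L' N R => toQ (q : Fin d → ℤ)) =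
        toQ '' (GF L' N R : Set (Fin d → ℤ)) := by
      ext v
      constructor
      · rintro ⟨q, rfl⟩
        exact ⟨q, q.2, rfl⟩
      · rintro ⟨q, hq, rfl⟩
        exact ⟨⟨q, hq⟩, rfl⟩
    rw [e]
    exact hwW
  obtain ⟨c, hc⟩ := (Submodule.mem_span_range_iff_exists_fun ℚ).1 hmem
  set b : κ → (Fin d → ℤ) := fun i => (a i : Fin d → ℤ) with hb
  have hbG : ∀ i, b i ∈ L' ∧ bx N R (b i) := fun i => (mem_GF hN).1 (a i).2
  set wa : ℕ → (Fin d → ℤ) := fun n => (n : ℤ) • w - ∑ i, ⌊(n : ℚ) * c i⌋ • b i with hwa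
  have hwaQ : ∀ n l, ((wa n l : ℤ) : ℚ) = ∑ i, Int.fract ((n : ℚ) * c i) * (b i l : ℚ) := by
    intro n l
    have h1 : (w l : ℚ) = ∑ i, c i * (b i l : ℚ) := by
      have := congrFun hc l
      simp only [Finset.sum_apply, Pi.smul_apply, Function.comp, smul_eq_mul] at this
      exact this.symm
    have h2 : wa n l = (n : ℤ) * w l - ∑ i, ⌊(n : ℚ) * c i⌋ * b i l := by
      rw [hwa]
      simp [Finset.sum_apply]
    rw [h2]
    push_cast
    rw [h1, Finset.mul_sum, ← Finset.sum_sub_distrib]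
    refine Finset.sum_congr rfl (fun i _ => ?_)
    rw [Int.fract]
    ring
  have hwabx : ∀ n, bx N (d * R) (wa n) := by
    intro n l
    have hQ : (|(wa n l : ℤ)| * (N : ℤ) ^ (l : ℕ) : ℚ) ≤ ((d * R : ℕ) : ℚ) := by
      have h3 : |((wa n l : ℤ) : ℚ)| ≤ ∑ i, |(b i l : ℚ)| := by
        rw [hwaQ]
        refine (Finset.abs_sum_le_sum_abs _ _).trans (Finset.sum_le_sum (fun i _ => ?_))
        rw [abs_mul, abs_of_nonneg (Int.fract_nonneg _)]
        exact mul_le_of_le_one_left (abs_nonneg _) (Int.fract_lt_one _).le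
      have h4 : ∀ i, |(b i l : ℚ)| * (N : ℚ) ^ (l : ℕ) ≤ R := by
        intro i
        have := (hbG i).2 l
        have h5 : ((|b i l| * (N : ℤ) ^ (l : ℕ) : ℤ) : ℚ) ≤ ((R : ℤ) : ℚ) := by exact_mod_cast this
        push_cast at h5
        exact h5
      calc (|(wa n l : ℤ)| * (N : ℤ) ^ (l : ℕ) : ℚ) ≤ (∑ i, |(b i l : ℚ)|) * (N : ℚ) ^ (l : ℕ) := by
            push_cast
            exact mul_le_mul_of_nonneg_right h3 (by positivity)
        _ = ∑ i, |(b i l : ℚ)| * (N : ℚ) ^ (l : ℕ) := by rw [Finset.sum_mul]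
        _ ≤ ∑ _i : κ, (R : ℚ) := Finset.sum_le_sum (fun i _ => h4 i)
        _ = (Fintype.card κ : ℚ) * R := by simp
        _ ≤ (d : ℚ) * R := by
            apply mul_le_mul_of_nonneg_right _ (by positivity)
            exact_mod_cast hcard
        _ = ((d * R : ℕ) : ℚ) := by push_cast; ring
    have : ((|wa n l| * (N : ℤ) ^ (l : ℕ) : ℤ) : ℚ) ≤ (((d * R : ℕ) : ℤ) : ℚ) := by
      push_cast at hQ ⊢
      exact hQ
    exact_mod_cast this
  have hwaL : ∀ n, wa n ∈ L := by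
    intro n
    refine L.sub_mem (L.zsmul_mem hw _) (L.sum_mem (fun i _ => L.zsmul_mem (hLL (hbG i).1) _))
  have hφwa : ∀ n, M ∣ φ (wa n) - n * D := by
    intro n
    have : φ (wa n) - n * D = - ∑ i, ⌊(n : ℚ) * c i⌋ * φ (b i) := by
      rw [hwa]
      simp only [map_sub, map_zsmul, map_sum, smul_eq_mul, hφ]
      ring
    rw [this, dvd_neg]
    exact Finset.dvd_sum (fun i _ => Dvd.dvd.mul_left (hM _ (hbG i).1) _)
  rw [← Finset.card_range I, ← Finset.card_product]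
  apply Finset.card_le_card_of_injOn (fun p : ℕ × (Fin d → ℤ) => wa p.1 + p.2)
  · intro p hp
    have hp' := Finset.mem_product.1 hp
    have hp2 := (mem_GF hN).1 hp'.2
    refine (mem_GF hN).2 ⟨L.add_mem (hwaL _) (hLL hp2.1), fun l => ?_⟩
    have h1 := hwabx p.1 l
    have h2 := hp2.2 l
    have h3 : |(wa p.1 + p.2) l| ≤ |wa p.1 l| + |p.2 l| := abs_add_le _ _
    have h4 : (0 : ℤ) ≤ (N : ℤ) ^ (l : ℕ) := by positivity
    have h5 := mul_le_mul_of_nonneg_right h3 h4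
    push_cast at h1 ⊢
    nlinarith
  · intro p hp p' hp' he
    have hq := Finset.mem_product.1 (Finset.mem_coe.1 hp)
    have hq' := Finset.mem_product.1 (Finset.mem_coe.1 hp')
    have hp2 := (mem_GF hN).1 hq.2
    have hp2' := (mem_GF hN).1 hq'.2
    have he' : wa p.1 + p.2 = wa p'.1 + p'.2 := he
    have h1 : φ (wa p.1) + φ p.2 = φ (wa p'.1) + φ p'.2 := by
      rw [← map_add, ← map_add, he']
    have h2 : M ∣ ((p.1 : ℤ) - p'.1) * D := by
      have e : ((p.1 : ℤ) - p'.1) * D = (φ (wa p'.1) - p'.1 * D) - (φ (wa p.1) - p.1 * D)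
          + φ p'.2 - φ p.2 := by linarith
      rw [e]
      exact dvd_sub (dvd_add (dvd_sub (hφwa _) (hφwa _)) (hM _ hp2'.1)) (hM _ hp2.1)
    have h3 : ((p.1 : ℤ) - p'.1) = 0 := by
      apply hI _ h2
      have r1 := Finset.mem_range.1 hq.1
      have r2 := Finset.mem_range.1 hq'.1
      rw [abs_lt]
      constructor <;> omega
    have h4 : p.1 = p'.1 := by omega
    have h5 : p.2 = p'.2 := by
      rw [h4] at he'
      exact add_left_cancel he'
    exact Prod.ext h4 h5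

/-- the generator of the group of values at `z` -/
lemma gen (L : AddSubgroup (Fin d → ℤ)) (W : Submodule ℚ (Fin d → ℚ)) (φ : (Fin d → ℤ) →+ ℤ) :
    ∃ D : ℕ, (∃ w ∈ L, toQ w ∈ W ∧ φ w = D) ∧ ∀ w ∈ L, toQ w ∈ W → (D : ℤ) ∣ φ w := by
  let H : AddSubgroup (Fin d → ℤ) :=
    { carrier := {w | w ∈ L ∧ toQ w ∈ W}
      zero_mem' := ⟨L.zero_mem, by
        have : toQ (0 : Fin d → ℤ) = 0 := by ext l; simp [toQ]
        rw [this]; exact W.zero_mem⟩
      add_mem' := by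
        rintro u v ⟨hu, hu'⟩ ⟨hv, hv'⟩
        refine ⟨L.add_mem hu hv, ?_⟩
        have : toQ (u + v) = toQ u + toQ v := by ext l; simp [toQ]
        rw [this]; exact W.add_mem hu' hv'
      neg_mem' := by
        rintro u ⟨hu, hu'⟩
        refine ⟨L.neg_mem hu, ?_⟩
        have : toQ (-u) = -toQ u := by ext l; simp [toQ]
        rw [this]; exact W.neg_mem hu' }
  obtain ⟨g, hg⟩ := Int.subgroup_cyclic (H.map φ)
  have hg1 : g ∈ H.map φ := by rw [hg]; exact AddSubgroup.mem_closure_singleton.2 ⟨1, by simp⟩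
  have hg2 : ∀ w ∈ L, toQ w ∈ W → g ∣ φ w := by
    intro w h1 h2
    have h3 : φ w ∈ H.map φ := ⟨w, ⟨h1, h2⟩, rfl⟩
    rw [hg, AddSubgroup.mem_closure_singleton] at h3
    obtain ⟨n, hn⟩ := h3
    exact ⟨n, by rw [← hn, smul_eq_mul, mul_comm]⟩
  obtain ⟨w, ⟨hw1, hw2⟩, hw3⟩ := hg1
  refine ⟨g.natAbs, ?_, fun w h1 h2 => by rw [Int.natAbs_dvd]; exact hg2 w h1 h2⟩
  rcases Int.natAbs_eq g with h | h
  · exact ⟨w, hw1, hw2, by rw [← h]; exact hw3⟩
  · refine ⟨-w, L.neg_mem hw1, ?_, ?_⟩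
    · have : toQ (-w) = -toQ w := by ext l; simp [toQ]
      rw [this]; exact W.neg_mem hw2
    · rw [map_neg, hw3]; omega

end Pool.Agent.T2H72.VMV
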