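import Pool.Agent.T2H72.VMV.Rec

/-! # The recursion -/

set_option autoImplicit false

namespace Pool.Agent.T2H72.VMV

open Finset

variable {d : ℕ}

/-- one step -/
lemma S4 (hd : 1 ≤ d) (t K0 m n b : ℕ) (hn : 1 ≤ n) (ε : ℝ) (hε : 0 < ε) : ∃ C : ℝ, 0 < C ∧
    ∀ N : ℕ, 1 ≤ N → ∀ (A B : Multiset ℤ), B.card = b → (∀ u ∈ B, 1 ≤ u ∧ u ≤ N) →
      ∑ z ∈ ZZ d N (K0 * N ^ t) A B,
        (((N : ℝ) ^ (1 - (1 : ℝ) / n)) ^ (rk (Lat d B (z ::ₘ A)) N ((d + 1) ^ m * (K0 * N ^ t)) - 1) *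
          ((GF (Lat d B (z ::ₘ A)) N ((d + 1) ^ m * (K0 * N ^ t))).card : ℝ) ^ ((1 : ℝ) / n)) ≤
        C * (N : ℝ) ^ (ff n b + ε) *
          (((N : ℝ) ^ (1 - (1 : ℝ) / n)) ^ (rk (Lat d A B) N ((d + 1) ^ (m + 1) * (K0 * N ^ t)) - 1) *
          ((GF (Lat d A B) N ((d + 1) ^ (m + 1) * (K0 * N ^ t))).card : ℝ) ^ ((1 : ℝ) / n)) := by
  classical
  have hn0 : (0 : ℝ) < n := by exact_mod_cast hn
  have h1n : (1 : ℝ) / n ≤ 1 := by
    rw [div_le_one hn0]; exact_mod_cast hn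
  rcases Nat.eq_zero_or_pos b with hb | hb
  · -- first step
    subst hb
    refine ⟨1, one_pos, fun N hN A B hBc hBN => ?_⟩
    have hNr : (1 : ℝ) ≤ N := by exact_mod_cast hN
    have hN0 : (0 : ℝ) < N := by linarith
    set R := (d + 1) ^ m * (K0 * N ^ t) with hR
    have hRs : (d + 1) ^ (m + 1) * (K0 * N ^ t) = (d + 1) * R := by rw [hR]; ring
    rw [hRs]
    have hRR : R ≤ (d + 1) * R := Nat.le_mul_of_pos_left _ (by omega)
    set X : ℝ := (N : ℝ) ^ (1 - (1 : ℝ) / n) with hX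
    have hX1 : 1 ≤ X := Real.one_le_rpow hNr (by linarith)
    set Y : ℝ := X ^ (rk (Lat d A B) N ((d + 1) * R) - 1) *
      ((GF (Lat d A B) N ((d + 1) * R)).card : ℝ) ^ ((1 : ℝ) / n) with hY
    have hY0 : 0 ≤ Y := by positivity
    have hterm : ∀ z ∈ ZZ d N (K0 * N ^ t) A B,
        X ^ (rk (Lat d B (z ::ₘ A)) N R - 1) *
          ((GF (Lat d B (z ::ₘ A)) N R).card : ℝ) ^ ((1 : ℝ) / n) ≤ Y := by
      intro z _
      apply mul_le_mul _ _ (by positivity) (by positivity)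
      · apply pow_le_pow_right₀ hX1
        exact Nat.sub_le_sub_right (Submodule.finrank_mono (WW_mono (Lat_step A B z) hN hRR)) 1
      · apply Real.rpow_le_rpow (by positivity) _ (by positivity)
        exact_mod_cast Finset.card_le_card (GF_mono (Lat_step A B z) hN hRR)
    refine (Finset.sum_le_sum hterm).trans ?_
    rw [Finset.sum_const, nsmul_eq_mul, one_mul]
    apply mul_le_mul_of_nonneg_right _ hY0
    have h1 : ((ZZ d N (K0 * N ^ t) A B).card : ℝ) ≤ N := by exact_mod_cast card_ZZ N _ A B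
    have h2 : ff n 0 = 1 := by
      unfold ff
      rw [Nat.sub_zero, div_self hn0.ne']
    rw [h2]
    refine h1.trans ?_
    calc (N : ℝ) = (N : ℝ) ^ (1 : ℝ) := (Real.rpow_one _).symm
      _ ≤ _ := Real.rpow_le_rpow_of_exponent_le hNr (by linarith)
  · obtain ⟨C2, hC2, h2⟩ := S2 hd t K0 m ε hε
    obtain ⟨C3, hC3, h3⟩ := S3 (d := d) t K0 m n b hn hb ε hε
    refine ⟨C2 + C3, by linarith, fun N hN A B hBc hBN => ?_⟩
    have hNr : (1 : ℝ) ≤ N := by exact_mod_cast hN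
    have hN0 : (0 : ℝ) < N := by linarith
    set R0 := K0 * N ^ t with hR0
    set R := (d + 1) ^ m * R0 with hR
    have hR0R : R0 ≤ R := Nat.le_mul_of_pos_left _ (by positivity)
    have hRs : (d + 1) ^ (m + 1) * R0 = (d + 1) * R := by rw [hR]; ring
    have hRR : R ≤ (d + 1) * R := Nat.le_mul_of_pos_left _ (by omega)
    have hB0 : B ≠ 0 := by
      rintro rfl
      rw [Multiset.card_zero] at hBc
      omega
    obtain ⟨u, hu⟩ := Multiset.exists_mem_of_ne_zero hB0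
    have h2' := h2 N hN A B u hu (hBN u hu).1 (hBN u hu).2
    set X : ℝ := (N : ℝ) ^ (1 - (1 : ℝ) / n) with hX
    have hX1 : 1 ≤ X := Real.one_le_rpow hNr (by linarith)
    have hX0 : 0 < X := by linarith
    set r := rk (Lat d A B) N ((d + 1) ^ (m + 1) * R0) with hr
    set Gc : ℝ := ((GF (Lat d A B) N ((d + 1) ^ (m + 1) * R0)).card : ℝ) with hGc
    have hGc0 : 0 ≤ Gc := by positivity
    set Z := ZZ d N R0 A B with hZ
    have hrk' : ∀ z ∈ Z, rk (Lat d B (z ::ₘ A)) N R ≤ r := by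
      intro z _
      rw [hr, hRs]
      exact Submodule.finrank_mono (WW_mono (Lat_step A B z) hN hRR)
    have hrk1 : ∀ z ∈ Z, 1 ≤ rk (Lat d B (z ::ₘ A)) N R := by
      intro z hz
      exact rk_pos hN hR0R (mem_ZZ.1 hz).2 (Or.inl hB0)
    rw [← Finset.sum_filter_add_sum_filter_not Z (fun z => rk (Lat d B (z ::ₘ A)) N R = r)]
    -- no loss of rank
    have t1 : ∑ z ∈ Z.filter (fun z => rk (Lat d B (z ::ₘ A)) N R = r),
        (X ^ (rk (Lat d B (z ::ₘ A)) N R - 1) *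
          ((GF (Lat d B (z ::ₘ A)) N R).card : ℝ) ^ ((1 : ℝ) / n)) ≤
        C3 * (N : ℝ) ^ (ff n b + ε) * (X ^ (r - 1) * Gc ^ ((1 : ℝ) / n)) := by
      have e1 : ∀ z ∈ Z.filter (fun z => rk (Lat d B (z ::ₘ A)) N R = r),
          (X ^ (rk (Lat d B (z ::ₘ A)) N R - 1) *
          ((GF (Lat d B (z ::ₘ A)) N R).card : ℝ) ^ ((1 : ℝ) / n)) =
          X ^ (r - 1) * ((GF (Lat d B (z ::ₘ A)) N R).card : ℝ) ^ ((1 : ℝ) / n) := by
        intro z hz
        rw [(Finset.mem_filter.1 hz).2]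
      rw [Finset.sum_congr rfl e1, ← Finset.mul_sum]
      have h3' := h3 N hN A B hBc hBN (Z.filter (fun z => rk (Lat d B (z ::ₘ A)) N R = r))
        (fun z hz => ⟨(Finset.mem_filter.1 hz).1, (Finset.mem_filter.1 hz).2⟩)
      calc X ^ (r - 1) * ∑ z ∈ Z.filter (fun z => rk (Lat d B (z ::ₘ A)) N R = r),
            ((GF (Lat d B (z ::ₘ A)) N R).card : ℝ) ^ ((1 : ℝ) / n)
          ≤ X ^ (r - 1) * (C3 * (N : ℝ) ^ (ff n b + ε) * Gc ^ ((1 : ℝ) / n)) :=
            mul_le_mul_of_nonneg_left h3' (by positivity)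
        _ = _ := by ring
    -- loss of rank
    have t2 : ∑ z ∈ Z.filter (fun z => ¬ rk (Lat d B (z ::ₘ A)) N R = r),
        (X ^ (rk (Lat d B (z ::ₘ A)) N R - 1) *
          ((GF (Lat d B (z ::ₘ A)) N R).card : ℝ) ^ ((1 : ℝ) / n)) ≤
        C2 * (N : ℝ) ^ (ff n b + ε) * (X ^ (r - 1) * Gc ^ ((1 : ℝ) / n)) := by
      set Z2 := Z.filter (fun z => ¬ rk (Lat d B (z ::ₘ A)) N R = r) with hZ2
      rcases Z2.eq_empty_or_nonempty with h0 | ⟨z0, hz0⟩
      · rw [h0, Finset.sum_empty]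
        positivity
      have hr2 : 2 ≤ r := by
        rw [hZ2, Finset.mem_filter] at hz0
        have e1 := hrk' z0 hz0.1
        have e2 := hrk1 z0 hz0.1
        have e3 := hz0.2
        omega
      have e1 : ∀ z ∈ Z2, (X ^ (rk (Lat d B (z ::ₘ A)) N R - 1) *
          ((GF (Lat d B (z ::ₘ A)) N R).card : ℝ) ^ ((1 : ℝ) / n)) ≤
          X ^ (r - 2) * ((GF (Lat d B (z ::ₘ A)) N R).card : ℝ) ^ ((1 : ℝ) / n) := by
        intro z hz
        rw [hZ2, Finset.mem_filter] at hz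
        apply mul_le_mul_of_nonneg_right _ (by positivity)
        apply pow_le_pow_right₀ hX1
        have e1 := hrk' z hz.1
        have e3 := hz.2
        omega
      refine (Finset.sum_le_sum e1).trans ?_
      rw [← Finset.mul_sum]
      have h5 : (Z2.card : ℝ) ≤ N := by
        have : Z2.card ≤ N := (Finset.card_filter_le _ _).trans (card_ZZ N _ A B)
        exact_mod_cast this
      have h6 := holder Z2 (fun z => ((GF (Lat d B (z ::ₘ A)) N R).card : ℝ))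
        (fun z _ => by positivity) n hn N h5
      have h7 : (∑ z ∈ Z2, ((GF (Lat d B (z ::ₘ A)) N R).card : ℝ)) ≤ C2 * (N : ℝ) ^ ε * Gc := by
        refine le_trans ?_ h2'
        exact Finset.sum_le_sum_of_subset_of_nonneg (Finset.filter_subset _ _) (fun _ _ _ => by positivity)
      have h8 : (∑ z ∈ Z2, ((GF (Lat d B (z ::ₘ A)) N R).card : ℝ)) ^ ((1 : ℝ) / n) ≤
          C2 * (N : ℝ) ^ (ff n b + ε) * Gc ^ ((1 : ℝ) / n) := by
        refine (Real.rpow_le_rpow (Finset.sum_nonneg (fun _ _ => by positivity)) h7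
          (by positivity)).trans ?_
        rw [Real.mul_rpow (by positivity) hGc0]
        apply mul_le_mul_of_nonneg_right _ (by positivity)
        have h9 : 1 ≤ C2 * (N : ℝ) ^ ε := by
          have := Real.one_le_rpow hNr hε.le
          nlinarith
        calc (C2 * (N : ℝ) ^ ε) ^ ((1 : ℝ) / n) ≤ (C2 * (N : ℝ) ^ ε) ^ (1 : ℝ) :=
              Real.rpow_le_rpow_of_exponent_le h9 h1n
          _ = C2 * (N : ℝ) ^ ε := Real.rpow_one _
          _ ≤ _ := by
              apply mul_le_mul_of_nonneg_left _ (by linarith)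
              apply Real.rpow_le_rpow_of_exponent_le hNr
              have := ff_nonneg n b
              linarith
      calc X ^ (r - 2) * ∑ z ∈ Z2, ((GF (Lat d B (z ::ₘ A)) N R).card : ℝ) ^ ((1 : ℝ) / n)
          ≤ X ^ (r - 2) * (X * (C2 * (N : ℝ) ^ (ff n b + ε) * Gc ^ ((1 : ℝ) / n))) := by
            apply mul_le_mul_of_nonneg_left _ (by positivity)
            exact h6.trans (mul_le_mul_of_nonneg_left h8 hX0.le)
        _ = C2 * (N : ℝ) ^ (ff n b + ε) * ((X ^ (r - 2) * X) * Gc ^ ((1 : ℝ) / n)) := by ring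
        _ = _ := by
            rw [← pow_succ, show r - 2 + 1 = r - 1 by omega]
    have t3 : 0 ≤ (N : ℝ) ^ (ff n b + ε) * (X ^ (r - 1) * Gc ^ ((1 : ℝ) / n)) := by positivity
    calc _ ≤ C3 * (N : ℝ) ^ (ff n b + ε) * (X ^ (r - 1) * Gc ^ ((1 : ℝ) / n)) +
          C2 * (N : ℝ) ^ (ff n b + ε) * (X ^ (r - 1) * Gc ^ ((1 : ℝ) / n)) := add_le_add t1 t2
      _ = _ := by ring

open scoped Classical in
/-- the number of admissible continuations -/
noncomputable def cnt (d N R0 : ℕ) : ℕ → Multiset ℤ → Multiset ℤ → ℕ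
  | 0, A, B => if PP d N R0 A B then 1 else 0
  | m + 1, A, B => ∑ z ∈ Finset.Icc (1 : ℤ) N, cnt d N R0 m B (z ::ₘ A)

lemma cnt_eq_zero {N R0 : ℕ} : ∀ (m : ℕ) (A B : Multiset ℤ), ¬ PP d N R0 A B → cnt d N R0 m A B = 0 := by
  classical
  intro m
  induction m with
  | zero => intro A B h; simp [cnt, h]
  | succ m ih =>
    intro A B h
    rw [cnt]
    apply Finset.sum_eq_zero
    intro z _
    apply ih
    intro hcon
    exact h (PP_step hcon)

/-- the recursion -/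
theorem main (hd : 1 ≤ d) (t K0 n : ℕ) (hn : 1 ≤ n) : ∀ (m a b : ℕ) (ε : ℝ), 0 < ε → ∃ C : ℝ, 0 < C ∧
    ∀ N : ℕ, 1 ≤ N → ∀ (A B : Multiset ℤ), A.card = a → B.card = b → (∀ u ∈ A, 1 ≤ u ∧ u ≤ N) →
      (∀ u ∈ B, 1 ≤ u ∧ u ≤ N) →
      (cnt d N (K0 * N ^ t) m A B : ℝ) ≤ C * (N : ℝ) ^ (EE n m a b + ε) *
          (((N : ℝ) ^ (1 - (1 : ℝ) / n)) ^ (rk (Lat d A B) N ((d + 1) ^ m * (K0 * N ^ t)) - 1) *
          ((GF (Lat d A B) N ((d + 1) ^ m * (K0 * N ^ t))).card : ℝ) ^ ((1 : ℝ) / n)) := by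
  classical
  have hn0 : (0 : ℝ) < n := by exact_mod_cast hn
  have h1n : (1 : ℝ) / n ≤ 1 := by
    rw [div_le_one hn0]; exact_mod_cast hn
  intro m
  induction m with
  | zero =>
    intro a b ε hε
    refine ⟨1, one_pos, fun N hN A B _ _ _ _ => ?_⟩
    have hNr : (1 : ℝ) ≤ N := by exact_mod_cast hN
    by_cases hP : PP d N (K0 * N ^ t) A B
    · rw [cnt, if_pos hP]
      have h1 : (1 : ℝ) ≤ (N : ℝ) ^ (EE n 0 a b + ε) := Real.one_le_rpow hNr (by simp only [EE]; linarith)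
      have h2 : (1 : ℝ) ≤ (N : ℝ) ^ (1 - (1 : ℝ) / n) := Real.one_le_rpow hNr (by linarith)
      have h3 := one_le_pow₀ h2 (n := rk (Lat d A B) N ((d + 1) ^ 0 * (K0 * N ^ t)) - 1)
      have h4 : (1 : ℝ) ≤ ((GF (Lat d A B) N ((d + 1) ^ 0 * (K0 * N ^ t))).card : ℝ) := by
        obtain ⟨q, h1, h2, -, -⟩ := hP
        have : 0 < (GF (Lat d A B) N ((d + 1) ^ 0 * (K0 * N ^ t))).card := by
          rw [Finset.card_pos]
          exact ⟨q, (mem_GF hN).2 ⟨h1, by rw [pow_zero, one_mul]; exact h2⟩⟩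
        exact_mod_cast this
      have h5 := Real.one_le_rpow h4 (by positivity : (0 : ℝ) ≤ (1 : ℝ) / n)
      have h6 := one_le_mul_of_one_le_of_one_le h3 h5
      have h7 := one_le_mul_of_one_le_of_one_le h1 h6
      rw [one_mul, Nat.cast_one]
      exact h7
    · rw [cnt_eq_zero 0 A B hP]
      rw [Nat.cast_zero]
      positivity
  | succ m ih =>
    intro a b ε hε
    obtain ⟨C1, hC1, h1⟩ := ih b (a + 1) (ε / 2) (by positivity)
    obtain ⟨C2, hC2, h2⟩ := S4 hd t K0 m n b hn (ε / 2) (by positivity)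
    refine ⟨C1 * C2, by positivity, fun N hN A B hA hB hAN hBN => ?_⟩
    have hNr : (1 : ℝ) ≤ N := by exact_mod_cast hN
    have hN0 : (0 : ℝ) < N := by linarith
    have e1 : cnt d N (K0 * N ^ t) (m + 1) A B =
        ∑ z ∈ ZZ d N (K0 * N ^ t) A B, cnt d N (K0 * N ^ t) m B (z ::ₘ A) := by
      rw [cnt]
      symm
      apply Finset.sum_subset
      · intro z hz
        rw [mem_ZZ] at hz
        exact Finset.mem_Icc.2 hz.1
      · intro z hz hz2
        apply cnt_eq_zero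
        intro hcon
        exact hz2 (mem_ZZ.2 ⟨Finset.mem_Icc.1 hz, hcon⟩)
    rw [e1]
    push_cast
    have e2 : ∀ z ∈ ZZ d N (K0 * N ^ t) A B, (cnt d N (K0 * N ^ t) m B (z ::ₘ A) : ℝ) ≤
        C1 * (N : ℝ) ^ (EE n m b (a + 1) + ε / 2) *
          (((N : ℝ) ^ (1 - (1 : ℝ) / n)) ^ (rk (Lat d B (z ::ₘ A)) N ((d + 1) ^ m * (K0 * N ^ t)) - 1) *
          ((GF (Lat d B (z ::ₘ A)) N ((d + 1) ^ m * (K0 * N ^ t))).card : ℝ) ^ ((1 : ℝ) / n)) := by
      intro z hz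
      rw [mem_ZZ] at hz
      apply h1 N hN B (z ::ₘ A) hB (by rw [Multiset.card_cons, hA]) hBN
      intro u hu
      rcases Multiset.mem_cons.1 hu with rfl | hu
      · exact hz.1
      · exact hAN u hu
    refine (Finset.sum_le_sum e2).trans ?_
    rw [← Finset.mul_sum]
    have h3 := h2 N hN A B hB hBN
    refine (mul_le_mul_of_nonneg_left h3 (by positivity)).trans (le_of_eq ?_)
    have h4 : (N : ℝ) ^ (EE n (m + 1) a b + ε) =
        (N : ℝ) ^ (EE n m b (a + 1) + ε / 2) * (N : ℝ) ^ (ff n b + ε / 2) := by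
      rw [← Real.rpow_add hN0]
      congr 1
      simp only [EE]
      ring
    rw [h4]
    ring

end Pool.Agent.T2H72.VMV
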