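import Pool.Agent.T2H72.VMV.Step

/-! # The sums over one new variable -/

set_option autoImplicit false

namespace Pool.Agent.T2H72.VMV

open Finset

variable {d : ℕ}

open scoped Classical in
/-- the admissible values of a new variable -/
noncomputable def ZZ (d N R0 : ℕ) (A B : Multiset ℤ) : Finset ℤ :=
  (Finset.Icc (1 : ℤ) N).filter (fun z => PP d N R0 B (z ::ₘ A))

lemma mem_ZZ {N R0 : ℕ} {A B : Multiset ℤ} {z : ℤ} : z ∈ ZZ d N R0 A B ↔
    (1 ≤ z ∧ z ≤ N) ∧ PP d N R0 B (z ::ₘ A) := by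
  classical
  rw [ZZ, Finset.mem_filter, Finset.mem_Icc]

lemma card_ZZ (N R0 : ℕ) (A B : Multiset ℤ) : (ZZ d N R0 A B).card ≤ N := by
  classical
  refine (Finset.card_filter_le _ _).trans ?_
  simp

/-- few `z` with `z - u ∣ m` -/
lemma few (S : Finset ℤ) (u m : ℤ) (hm : m ≠ 0) (hS : ∀ z ∈ S, z - u ∣ m) :
    S.card ≤ 2 * m.natAbs.divisors.card := by
  classical
  have hsub : S ⊆ (m.natAbs.divisors.image (fun e : ℕ => u + e)) ∪
      (m.natAbs.divisors.image (fun e : ℕ => u - e)) := by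
    intro z hz
    have h1 := hS z hz
    have h2 : (z - u).natAbs ∈ m.natAbs.divisors := by
      rw [Nat.mem_divisors]
      exact ⟨Int.natAbs_dvd_natAbs.2 h1, Int.natAbs_ne_zero.2 hm⟩
    rw [Finset.mem_union, Finset.mem_image, Finset.mem_image]
    rcases le_total u z with h | h
    · left; exact ⟨_, h2, by omega⟩
    · right; exact ⟨_, h2, by omega⟩
  calc S.card ≤ _ := Finset.card_le_card hsub
    _ ≤ _ := Finset.card_union_le _ _
    _ ≤ m.natAbs.divisors.card + m.natAbs.divisors.card :=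
        add_le_add Finset.card_image_le Finset.card_image_le
    _ = _ := by ring

/-- for one `z`: points of the new lattice -/
lemma new_le (hd : 1 ≤ d) {N R0 R : ℕ} (hN : 1 ≤ N) (hR : R0 ≤ R) {A B : Multiset ℤ} {z u : ℤ}
    (hu : u ∈ B) (h : PP d N R0 B (z ::ₘ A)) [DecidablePred fun q : Fin d → ℤ => ev u q ≠ 0 ∧ z - u ∣ ev u q] :
    (GF (Lat d B (z ::ₘ A)) N R).card ≤
      2 * ((GF (Lat d A B) N ((d + 1) * R)).filter (fun q => ev u q ≠ 0 ∧ z - u ∣ ev u q)).card := by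
  classical
  obtain ⟨q0, h1, h2, h3, h4⟩ := h
  have hdv : ∀ q ∈ Lat d B (z ::ₘ A), z - u ∣ ev u q := by
    intro q hq
    have := (mem_Lat.1 hq).1 u hu
    rw [Multiset.map_cons, Multiset.prod_cons] at this
    rw [← neg_sub, neg_dvd]
    exact dvd_of_mul_right_dvd this
  have hRR : R ≤ (d + 1) * R := Nat.le_mul_of_pos_left _ (by omega)
  have hRR2 : R + R ≤ (d + 1) * R := by nlinarith
  rw [← Finset.card_filter_add_card_filter_not (s := GF (Lat d B (z ::ₘ A)) N R)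
    (fun q => ev u q ≠ 0), two_mul]
  apply add_le_add
  · apply Finset.card_le_card
    intro q hq
    rw [Finset.mem_filter] at hq ⊢
    have := (mem_GF hN).1 hq.1
    exact ⟨(mem_GF hN).2 ⟨Lat_step A B z this.1, bx_mono hRR this.2⟩, hq.2, hdv q this.1⟩
  · apply Finset.card_le_card_of_injOn (fun q => q + q0)
    · intro q hq
      have hq' := Finset.mem_filter.1 (Finset.mem_coe.1 hq)
      have hq1 := (mem_GF hN).1 hq'.1
      have hq2 : ev u q = 0 := by
        have := hq'.2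
        push Not at this
        exact this
      have hL : q + q0 ∈ Lat d B (z ::ₘ A) := AddSubgroup.add_mem _ hq1.1 h1
      refine Finset.mem_coe.2 (Finset.mem_filter.2 ⟨(mem_GF hN).2 ⟨Lat_step A B z hL, fun l => ?_⟩, ?_,
        hdv _ hL⟩)
      · have e1 := hq1.2 l
        have e2 := h2 l
        have e3 : |(q + q0) l| ≤ |q l| + |q0 l| := abs_add_le _ _
        have e4 : (0 : ℤ) ≤ (N : ℤ) ^ (l : ℕ) := by positivity
        have e5 := mul_le_mul_of_nonneg_right e3 e4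
        have e6 : (R : ℤ) + R ≤ (((d + 1) * R : ℕ) : ℤ) := by exact_mod_cast hRR2
        have e7 : (R0 : ℤ) ≤ R := by exact_mod_cast hR
        rw [add_mul] at e5
        linarith
      · rw [map_add, hq2, zero_add]
        exact h3 u hu
    · intro q _ q' _ he
      exact add_right_cancel he

/-- the sum of the numbers of points -/
lemma S2 (hd : 1 ≤ d) (t K0 m : ℕ) (ε : ℝ) (hε : 0 < ε) : ∃ C : ℝ, 1 ≤ C ∧ ∀ N : ℕ, 1 ≤ N →
    ∀ (A B : Multiset ℤ) (u : ℤ), u ∈ B → 1 ≤ u → u ≤ N →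
      ∑ z ∈ ZZ d N (K0 * N ^ t) A B,
          ((GF (Lat d B (z ::ₘ A)) N ((d + 1) ^ m * (K0 * N ^ t))).card : ℝ) ≤
        C * (N : ℝ) ^ ε * (GF (Lat d A B) N ((d + 1) ^ (m + 1) * (K0 * N ^ t))).card := by
  classical
  obtain ⟨C, hC, hdiv⟩ := divb (d * (d + 1) ^ (m + 1) * K0) t ε hε
  refine ⟨4 * C + 1, by linarith, fun N hN A B u hu h1u huN => ?_⟩
  have hNr : (1 : ℝ) ≤ N := by exact_mod_cast hN
  set R0 := K0 * N ^ t with hR0
  set R := (d + 1) ^ m * R0 with hR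
  have hR0R : R0 ≤ R := Nat.le_mul_of_pos_left _ (by positivity)
  have hRs : (d + 1) ^ (m + 1) * R0 = (d + 1) * R := by rw [hR]; ring
  rw [hRs]
  set G := GF (Lat d A B) N ((d + 1) * R) with hG
  set Z := ZZ d N R0 A B with hZ
  have h1 : ∑ z ∈ Z, (GF (Lat d B (z ::ₘ A)) N R).card ≤
      ∑ z ∈ Z, 2 * (G.filter (fun q => ev u q ≠ 0 ∧ z - u ∣ ev u q)).card := by
    apply Finset.sum_le_sum
    intro z hz
    exact new_le hd hN hR0R hu (mem_ZZ.1 hz).2
  have h2 : ∑ z ∈ Z, (G.filter (fun q => ev u q ≠ 0 ∧ z - u ∣ ev u q)).card =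
      ∑ q ∈ G, (Z.filter (fun z => ev u q ≠ 0 ∧ z - u ∣ ev u q)).card := by
    simp only [Finset.card_filter]
    exact Finset.sum_comm
  have h3 : ∀ q ∈ G, ((Z.filter (fun z => ev u q ≠ 0 ∧ z - u ∣ ev u q)).card : ℝ) ≤
      2 * (C * (N : ℝ) ^ ε) := by
    intro q hq
    have hq' := (mem_GF hN).1 hq
    by_cases h0 : ev u q = 0
    · have : (Z.filter (fun z => ev u q ≠ 0 ∧ z - u ∣ ev u q)) = ∅ := by
        apply Finset.filter_eq_empty_iff.2
        intro z _ hcon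
        exact hcon.1 h0
      rw [this]
      simp only [Finset.card_empty, Nat.cast_zero]
      positivity
    · have e1 := few (Z.filter (fun z => ev u q ≠ 0 ∧ z - u ∣ ev u q)) u (ev u q) h0
        (fun z hz => (Finset.mem_filter.1 hz).2.2)
      have e2 := ev_bound hq'.2 (by omega : (0 : ℤ) ≤ u) huN
      have e3 : (ev u q).natAbs ≤ d * (d + 1) ^ (m + 1) * K0 * N ^ t := by
        have : ((ev u q).natAbs : ℤ) ≤ ((d * ((d + 1) * R) : ℕ) : ℤ) := by
          rw [← Int.abs_eq_natAbs]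
          push_cast at e2 ⊢
          exact e2
        have h5 : (ev u q).natAbs ≤ d * ((d + 1) * R) := by exact_mod_cast this
        refine h5.trans (le_of_eq ?_)
        rw [hR, hR0]; ring
      have e4 := hdiv N hN (ev u q).natAbs (Int.natAbs_pos.2 h0) e3
      calc ((Z.filter (fun z => ev u q ≠ 0 ∧ z - u ∣ ev u q)).card : ℝ)
          ≤ 2 * ((ev u q).natAbs.divisors.card : ℝ) := by exact_mod_cast e1
        _ ≤ _ := by linarith
  have h4 : (∑ z ∈ Z, ((GF (Lat d B (z ::ₘ A)) N R).card : ℝ)) ≤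
      2 * ∑ q ∈ G, ((Z.filter (fun z => ev u q ≠ 0 ∧ z - u ∣ ev u q)).card : ℝ) := by
    rw [← Finset.mul_sum, h2] at h1
    exact_mod_cast h1
  refine h4.trans ?_
  have h5 := Finset.sum_le_sum h3
  rw [Finset.sum_const, nsmul_eq_mul] at h5
  have h6 : (0 : ℝ) ≤ (N : ℝ) ^ ε * G.card := by positivity
  nlinarith

/-- a covering inequality -/
lemma sum_cover {α β : Type*} (S : Finset α) (T : Finset β) (g : α → ℝ) (h : β → ℝ)
    (hh : ∀ p ∈ T, 0 ≤ h p) (F : β → α) (H : ∀ z ∈ S, ∃ p ∈ T, F p = z ∧ g z ≤ h p) :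
    ∑ z ∈ S, g z ≤ ∑ p ∈ T, h p := by
  classical
  rcases S.eq_empty_or_nonempty with h0 | ⟨z0, hz0⟩
  · subst h0
    simpa using Finset.sum_nonneg hh
  obtain ⟨p0, -⟩ := H z0 hz0
  have : Nonempty β := ⟨p0⟩
  choose! f hf1 hf2 hf3 using H
  calc ∑ z ∈ S, g z ≤ ∑ z ∈ S, h (f z) := Finset.sum_le_sum hf3
    _ = ∑ p ∈ S.image f, h p := by
        rw [Finset.sum_image]
        intro z hz z' hz' he
        rw [← hf2 z hz, ← hf2 z' hz', he]
    _ ≤ ∑ p ∈ T, h p := by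
        apply Finset.sum_le_sum_of_subset_of_nonneg
        · intro p hp
          rw [Finset.mem_image] at hp
          obtain ⟨z, hz, rfl⟩ := hp
          exact hf1 z hz
        · intro p hp _
          exact hh p hp

/-- the structure of one variable without loss of rank -/
lemma nondrop {N R0 R : ℕ} (hN : 1 ≤ N) (hR : R0 ≤ R) (A B : Multiset ℤ) (hB : B ≠ 0)
    (hBN : ∀ u ∈ B, 1 ≤ u ∧ u ≤ N) (Du : ℤ → ℕ)
    (hDu : ∀ u, (∃ w ∈ Lat d A B, toQ w ∈ WW (Lat d A B) N ((d + 1) * R) ∧ ev u w = Du u) ∧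
      ∀ w ∈ Lat d A B, toQ w ∈ WW (Lat d A B) N ((d + 1) * R) → (Du u : ℤ) ∣ ev u w)
    (z : ℤ) (hz1 : 1 ≤ z) (hzN : z ≤ N) (hP : PP d N R0 B (z ::ₘ A))
    (hrk : rk (Lat d B (z ::ₘ A)) N R = rk (Lat d A B) N ((d + 1) * R)) :
    ∃ u ∈ B, ∃ e v : ℕ, e ∣ Du u ∧ Du u ≠ 0 ∧ 1 ≤ v ∧ v ≤ N ∧ (z = u + e * v ∨ z = u - e * v) ∧
      v ^ B.card * (GF (Lat d B (z ::ₘ A)) N R).card ≤ (GF (Lat d A B) N ((d + 1) * R)).card := by
  classical
  have hRR : R ≤ (d + 1) * R := Nat.le_mul_of_pos_left _ (by omega)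
  have hne := PP_ne hP
  have hWW : WW (Lat d B (z ::ₘ A)) N R = WW (Lat d A B) N ((d + 1) * R) :=
    Submodule.eq_of_le_of_finrank_eq (WW_mono (Lat_step A B z) hN hRR) hrk
  obtain ⟨⟨w, hw1, hw2, hw3⟩, hDz⟩ := hDu z
  set D := Du z with hD
  set f : ℤ → ℕ := fun u => (z - u).natAbs / Nat.gcd D (z - u).natAbs with hf
  have hstep := step (Lat d A B) (Lat d B (z ::ₘ A)) (Lat_step A B z) N R hN (ev z)
    (B.map (fun u => z - u)).prod D (((B.map (fun u => (z - u).natAbs)).map (fun s => s / Nat.gcd D s)).prod)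
    (fun q hq => (mem_Lat.1 hq).2 z (Multiset.mem_cons_self z A)) w hw1 (by rw [hWW]; exact hw2) hw3
    (fun a ha hlt => index B z hne D a ha hlt)
  rw [Multiset.map_map] at hstep
  have hnonempty : B.toFinset.Nonempty := by
    obtain ⟨u, hu⟩ := Multiset.exists_mem_of_ne_zero hB
    exact ⟨u, Multiset.mem_toFinset.2 hu⟩
  obtain ⟨u, hu, hmin⟩ := Finset.exists_min_image B.toFinset f hnonempty
  rw [Multiset.mem_toFinset] at hu
  have hpow : f u ^ B.card ≤ (B.map f).prod := by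
    have : ∀ B' : Multiset ℤ, (∀ x ∈ B', f u ≤ f x) → f u ^ B'.card ≤ (B'.map f).prod := by
      intro B'
      induction B' using Multiset.induction_on with
      | empty => intro _; simp
      | cons x B' ih =>
        intro h
        rw [Multiset.card_cons, Multiset.map_cons, Multiset.prod_cons, pow_succ, mul_comm]
        exact Nat.mul_le_mul (h x (Multiset.mem_cons_self _ _))
          (ih (fun y hy => h y (Multiset.mem_cons_of_mem hy)))
    exact this B (fun x hx => hmin x (Multiset.mem_toFinset.2 hx))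
  have hzu : z - u ≠ 0 := by
    have := hne u hu
    omega
  have hzu' : 0 < (z - u).natAbs := Int.natAbs_pos.2 hzu
  set e := Nat.gcd D (z - u).natAbs with he
  have hev : e * f u = (z - u).natAbs := Nat.mul_div_cancel' (Nat.gcd_dvd_right _ _)
  refine ⟨u, hu, e, f u, ?_, ?_, ?_, ?_, ?_, ?_⟩
  · -- e ∣ Du u
    obtain ⟨⟨w', hw1', hw2', hw3'⟩, -⟩ := hDu u
    have h1 : (e : ℤ) ∣ ev z w' := by
      refine dvd_trans ?_ (hDz w' hw1' hw2')
      exact_mod_cast Nat.gcd_dvd_left D (z - u).natAbs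
    have h2 : (e : ℤ) ∣ z - u := by
      have : e ∣ (z - u).natAbs := Nat.gcd_dvd_right _ _
      exact Int.natCast_dvd.2 this
    have h3 : (e : ℤ) ∣ ev z w' - ev u w' := h2.trans (ev_congr w' u z)
    have h4 : (e : ℤ) ∣ ev u w' := by
      have := dvd_sub h1 h3
      rwa [sub_sub_cancel] at this
    rw [hw3'] at h4
    exact_mod_cast h4
  · -- Du u ≠ 0
    obtain ⟨q0, p1, p2, p3, p4⟩ := PP_step hP
    intro h0
    have h1 := (hDu u).2 q0 p1 (mem_WW hN p1 (bx_mono (hR.trans hRR) p2))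
    rw [h0, Nat.cast_zero, zero_dvd_iff] at h1
    exact p4 u hu h1
  · rcases Nat.eq_zero_or_pos (f u) with h | h
    · rw [h, mul_zero] at hev; omega
    · exact h
  · have h1 : f u ≤ (z - u).natAbs := Nat.div_le_self _ _
    have h2 := hBN u hu
    omega
  · have h3 : ((e : ℤ) * (f u : ℤ)) = ((z - u).natAbs : ℤ) := by exact_mod_cast hev
    rcases le_total u z with h | h
    · left; omega
    · right; omega
  · refine le_trans (Nat.mul_le_mul_right _ hpow) ?_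
    exact hstep

/-- the sum over the variables without loss of rank -/
lemma S3 (t K0 m n b : ℕ) (hn : 1 ≤ n) (hb : 1 ≤ b) (ε : ℝ) (hε : 0 < ε) : ∃ C : ℝ, 1 ≤ C ∧
    ∀ N : ℕ, 1 ≤ N → ∀ (A B : Multiset ℤ), B.card = b → (∀ u ∈ B, 1 ≤ u ∧ u ≤ N) → ∀ S : Finset ℤ,
      (∀ z ∈ S, z ∈ ZZ d N (K0 * N ^ t) A B ∧ rk (Lat d B (z ::ₘ A)) N ((d + 1) ^ m * (K0 * N ^ t)) =
        rk (Lat d A B) N ((d + 1) ^ (m + 1) * (K0 * N ^ t))) →
      ∑ z ∈ S, ((GF (Lat d B (z ::ₘ A)) N ((d + 1) ^ m * (K0 * N ^ t))).card : ℝ) ^ ((1 : ℝ) / n) ≤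
        C * (N : ℝ) ^ (ff n b + ε) *
          ((GF (Lat d A B) N ((d + 1) ^ (m + 1) * (K0 * N ^ t))).card : ℝ) ^ ((1 : ℝ) / n) := by
  classical
  obtain ⟨C1, hC1, hdiv⟩ := divb (d * K0) t (ε / 2) (by positivity)
  obtain ⟨C2, hC2, hsum⟩ := sumv n b hn (ε / 2) (by positivity)
  refine ⟨b * (C1 * (2 * C2)) + 1, by
    have : 0 ≤ (b : ℝ) * (C1 * (2 * C2)) := by positivity
    linarith, fun N hN A B hBc hBN S hS => ?_⟩
  have hNr : (1 : ℝ) ≤ N := by exact_mod_cast hN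
  have hN0 : (0 : ℝ) < N := by linarith
  have hn0 : (0 : ℝ) < n := by exact_mod_cast hn
  set R0 := K0 * N ^ t with hR0
  set R := (d + 1) ^ m * R0 with hR
  have hR0R : R0 ≤ R := Nat.le_mul_of_pos_left _ (by positivity)
  have hRR : R ≤ (d + 1) * R := Nat.le_mul_of_pos_left _ (by omega)
  have hRs : (d + 1) ^ (m + 1) * R0 = (d + 1) * R := by rw [hR]; ring
  rw [hRs] at hS ⊢
  set G : ℝ := ((GF (Lat d A B) N ((d + 1) * R)).card : ℝ) ^ ((1 : ℝ) / n) with hG
  have hG0 : 0 ≤ G := by positivity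
  rcases S.eq_empty_or_nonempty with h0 | ⟨z0, hz0⟩
  · subst h0
    simp only [Finset.sum_empty]
    positivity
  have hPP : PP d N R0 A B := PP_step (mem_ZZ.1 (hS z0 hz0).1).2
  have hB0 : B ≠ 0 := by
    rintro rfl
    rw [Multiset.card_zero] at hBc
    omega
  choose Du hDu using fun u : ℤ => gen (Lat d A B) (WW (Lat d A B) N ((d + 1) * R)) (ev u)
  -- the divisors
  have hDuB : ∀ u ∈ B, ((Du u).divisors.card : ℝ) ≤ C1 * (N : ℝ) ^ (ε / 2) := by
    intro u hu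
    obtain ⟨q0, p1, p2, p3, p4⟩ := hPP
    have h1 := (hDu u).2 q0 p1 (mem_WW hN p1 (bx_mono (hR0R.trans hRR) p2))
    have h2 := ev_bound p2 (by have := (hBN u hu).1; omega : (0 : ℤ) ≤ u) (hBN u hu).2
    have h3 : Du u ∣ (ev u q0).natAbs := by
      have := Int.natAbs_dvd_natAbs.2 h1
      simpa using this
    have h4 : 0 < (ev u q0).natAbs := Int.natAbs_pos.2 (p4 u hu)
    have h5 : (ev u q0).natAbs ≤ d * K0 * N ^ t := by
      have : ((ev u q0).natAbs : ℤ) ≤ ((d * R0 : ℕ) : ℤ) := by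
        rw [← Int.abs_eq_natAbs]
        push_cast at h2 ⊢
        exact h2
      have h6 : (ev u q0).natAbs ≤ d * R0 := by exact_mod_cast this
      rw [hR0, ← mul_assoc] at h6
      exact h6
    exact hdiv N hN (Du u) (Nat.pos_of_dvd_of_pos h3 h4) ((Nat.le_of_dvd h4 h3).trans h5)
  set T : Finset (Σ _ : ℤ, ℕ × ℕ × Bool) := B.toFinset.sigma
    (fun u => (Du u).divisors ×ˢ (Finset.Icc 1 N ×ˢ (Finset.univ : Finset Bool))) with hT
  have hcov := sum_cover S T
    (fun z => ((GF (Lat d B (z ::ₘ A)) N R).card : ℝ) ^ ((1 : ℝ) / n))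
    (fun p => G * ((p.2.2.1 : ℝ) ^ (-((b : ℝ) / n)))) (fun p _ => by positivity)
    (fun p => if p.2.2.2 then p.1 + p.2.1 * p.2.2.1 else p.1 - p.2.1 * p.2.2.1) (by
      intro z hz
      obtain ⟨hzZ, hzrk⟩ := hS z hz
      obtain ⟨⟨hz1, hzN⟩, hzP⟩ := mem_ZZ.1 hzZ
      obtain ⟨u, hu, e, v, he, hDu0, hv1, hvN, hze, hle⟩ := nondrop hN hR0R A B hB0 hBN Du hDu z hz1 hzN hzP hzrk
      have hle' : ((GF (Lat d B (z ::ₘ A)) N R).card : ℝ) ^ ((1 : ℝ) / n) ≤
          G * ((v : ℝ) ^ (-((b : ℝ) / n))) := by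
        have hv0 : (0 : ℝ) < v := by exact_mod_cast hv1
        have h1 : ((v : ℝ) ^ b) * ((GF (Lat d B (z ::ₘ A)) N R).card : ℝ) ≤
            ((GF (Lat d A B) N ((d + 1) * R)).card : ℝ) := by
          rw [hBc] at hle
          exact_mod_cast hle
        have h2 := Real.rpow_le_rpow (by positivity) h1 (by positivity : (0 : ℝ) ≤ (1 : ℝ) / n)
        rw [Real.mul_rpow (by positivity) (by positivity), ← Real.rpow_natCast (v : ℝ) b,
          ← Real.rpow_mul hv0.le] at h2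
        have h3 : (b : ℝ) * (1 / n) = (b : ℝ) / n := by ring
        rw [h3] at h2
        rw [Real.rpow_neg hv0.le, ← div_eq_mul_inv, le_div_iff₀ (by positivity), mul_comm]
        exact h2
      have hmemT : ∀ s : Bool, (⟨u, (e, (v, s))⟩ : Σ _ : ℤ, ℕ × ℕ × Bool) ∈ T := by
        intro s
        rw [hT, Finset.mem_sigma]
        refine ⟨Multiset.mem_toFinset.2 hu, ?_⟩
        rw [Finset.mem_product, Finset.mem_product, Nat.mem_divisors, Finset.mem_Icc]
        exact ⟨⟨he, hDu0⟩, ⟨hv1, hvN⟩, Finset.mem_univ _⟩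
      rcases hze with h | h
      · exact ⟨⟨u, (e, (v, true))⟩, hmemT _, by simp [h], hle'⟩
      · exact ⟨⟨u, (e, (v, false))⟩, hmemT _, by simp [h], hle'⟩)
  refine hcov.trans ?_
  rw [← Finset.mul_sum]
  have hT2 : ∑ p ∈ T, ((p.2.2.1 : ℝ) ^ (-((b : ℝ) / n))) ≤
      (b * (C1 * (2 * C2)) + 1) * (N : ℝ) ^ (ff n b + ε) := by
    rw [hT, Finset.sum_sigma]
    have h1 : ∀ u ∈ B.toFinset, ∑ s ∈ (Du u).divisors ×ˢ (Finset.Icc 1 N ×ˢ (Finset.univ : Finset Bool)),
        ((s.2.1 : ℝ) ^ (-((b : ℝ) / n))) ≤ C1 * (2 * C2) * (N : ℝ) ^ (ff n b + ε) := by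
      intro u hu
      rw [Finset.sum_product]
      have h2 : ∀ x ∈ (Du u).divisors, ∑ y ∈ (Finset.Icc 1 N ×ˢ (Finset.univ : Finset Bool)),
          ((((x, y) : ℕ × ℕ × Bool).2.1 : ℝ) ^ (-((b : ℝ) / n))) =
          2 * ∑ v ∈ Finset.Icc 1 N, ((v : ℝ) ^ (-((b : ℝ) / n))) := by
        intro x _
        rw [Finset.sum_product]
        simp only [Finset.sum_const, Finset.card_univ, Fintype.card_bool, nsmul_eq_mul]
        rw [← Finset.mul_sum]
        norm_num
      rw [Finset.sum_congr rfl h2, Finset.sum_const, nsmul_eq_mul]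
      have h3 := hDuB u (Multiset.mem_toFinset.1 hu)
      have h4 := hsum N hN
      have h5 : (0 : ℝ) ≤ ∑ v ∈ Finset.Icc 1 N, ((v : ℝ) ^ (-((b : ℝ) / n))) :=
        Finset.sum_nonneg (fun v _ => by positivity)
      calc ((Du u).divisors.card : ℝ) * (2 * ∑ v ∈ Finset.Icc 1 N, ((v : ℝ) ^ (-((b : ℝ) / n))))
          ≤ (C1 * (N : ℝ) ^ (ε / 2)) * (2 * (C2 * (N : ℝ) ^ (ff n b + ε / 2))) := by
            apply mul_le_mul h3 _ (by positivity) (by positivity)
            linarith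
        _ = C1 * (2 * C2) * ((N : ℝ) ^ (ε / 2) * (N : ℝ) ^ (ff n b + ε / 2)) := by ring
        _ = _ := by
            rw [← Real.rpow_add hN0]
            congr 2
            ring
    refine (Finset.sum_le_sum h1).trans ?_
    rw [Finset.sum_const, nsmul_eq_mul]
    have h2 : (B.toFinset.card : ℝ) ≤ b := by
      rw [← hBc]
      exact_mod_cast Multiset.toFinset_card_le B
    have h3 : 0 ≤ C1 * (2 * C2) * (N : ℝ) ^ (ff n b + ε) := by positivity
    have h4 : 0 ≤ (N : ℝ) ^ (ff n b + ε) := by positivity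
    nlinarith
  calc G * ∑ p ∈ T, ((p.2.2.1 : ℝ) ^ (-((b : ℝ) / n)))
      ≤ G * ((b * (C1 * (2 * C2)) + 1) * (N : ℝ) ^ (ff n b + ε)) :=
        mul_le_mul_of_nonneg_left hT2 hG0
    _ = _ := by ring

end Pool.Agent.T2H72.VMV
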