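import Pool.Agent.T2H72.VMV.Main
import Pool.Agent.TH900.VPS.Final

/-! # From disjoint solutions of Vinogradov's system to the recursion -/

set_option autoImplicit false

namespace Pool.Agent.T2H72.VMV

open Finset Polynomial
open Pool.Agent.W89.VP (VS VD VN)

/-- the multiset of values -/
def MM {t : ℕ} (x : Fin t → ℕ) : Multiset ℤ := (List.ofFn (fun i => (x i : ℤ)) : List ℤ)

lemma MM_prod {t : ℕ} (x : Fin t → ℕ) (g : ℤ → ℤ) : ((MM x).map g).prod = ∏ i, g (x i) := by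
  rw [MM, Multiset.map_coe, Multiset.prod_coe, List.map_ofFn, List.prod_ofFn]
  simp only [Function.comp]

lemma mem_MM {t : ℕ} {x : Fin t → ℕ} {u : ℤ} : u ∈ MM x ↔ ∃ i, (x i : ℤ) = u := by
  rw [MM, Multiset.mem_coe, List.mem_ofFn]

lemma MM_succ {t : ℕ} (x : Fin (t + 1) → ℕ) : MM x = (x 0 : ℤ) ::ₘ MM (Fin.tail x) := by
  rw [MM, MM, List.ofFn_succ]
  rfl

/-- coefficient bound -/
lemma coeffb (N : ℕ) : ∀ (t : ℕ) (x : Fin t → ℕ), (∀ i, x i ≤ N) → ∀ l,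
    |(∏ i, ((X : ℤ[X]) - C (x i : ℤ))).coeff l| * (N : ℤ) ^ l ≤ 2 ^ t * (N : ℤ) ^ t := by
  intro t
  induction t with
  | zero =>
    intro x _ l
    simp only [Finset.univ_eq_empty, Finset.prod_empty, pow_zero, mul_one]
    rw [coeff_one]
    split_ifs with h
    · subst h; simp
    · simp
  | succ t ih =>
    intro x hx l
    rw [Fin.prod_univ_succ]
    set P : ℤ[X] := ∏ i : Fin t, ((X : ℤ[X]) - C (x i.succ : ℤ)) with hP
    have ih' := ih (fun i => x i.succ) (fun i => hx _)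
    have hx0 : (x 0 : ℤ) ≤ N := by exact_mod_cast hx 0
    have hx00 : (0 : ℤ) ≤ x 0 := by positivity
    have key : ∀ l, (x 0 : ℤ) * (|P.coeff l| * (N : ℤ) ^ l) ≤ 2 ^ t * (N : ℤ) ^ (t + 1) := by
      intro l
      calc (x 0 : ℤ) * (|P.coeff l| * (N : ℤ) ^ l) ≤ N * (2 ^ t * (N : ℤ) ^ t) :=
            mul_le_mul hx0 (ih' l) (by positivity) (by positivity)
        _ = _ := by ring
    rcases l with _ | l
    · rw [mul_coeff_zero, coeff_sub, coeff_X_zero, coeff_C_zero, zero_sub, abs_mul, abs_neg,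
        abs_of_nonneg hx00]
      have h1 := key 0
      have h2 : (0 : ℤ) ≤ 2 ^ t * (N : ℤ) ^ (t + 1) := by positivity
      calc (x 0 : ℤ) * |P.coeff 0| * (N : ℤ) ^ 0 = (x 0 : ℤ) * (|P.coeff 0| * (N : ℤ) ^ 0) := by ring
        _ ≤ _ := h1
        _ ≤ _ := by rw [pow_succ (2 : ℤ) t]; nlinarith
    · rw [sub_mul, coeff_sub, coeff_X_mul, coeff_C_mul]
      have h1 := key (l + 1)
      have h2 : |P.coeff l - (x 0 : ℤ) * P.coeff (l + 1)| ≤ |P.coeff l| + (x 0 : ℤ) * |P.coeff (l + 1)| := by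
        refine (abs_sub _ _).trans ?_
        rw [abs_mul, abs_of_nonneg hx00]
      have h3 : |P.coeff l| * (N : ℤ) ^ (l + 1) ≤ 2 ^ t * (N : ℤ) ^ (t + 1) := by
        calc |P.coeff l| * (N : ℤ) ^ (l + 1) = N * (|P.coeff l| * (N : ℤ) ^ l) := by ring
          _ ≤ N * (2 ^ t * (N : ℤ) ^ t) := mul_le_mul_of_nonneg_left (ih' l) (by positivity)
          _ = _ := by ring
      calc |P.coeff l - (x 0 : ℤ) * P.coeff (l + 1)| * (N : ℤ) ^ (l + 1)
          ≤ (|P.coeff l| + (x 0 : ℤ) * |P.coeff (l + 1)|) * (N : ℤ) ^ (l + 1) :=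
            mul_le_mul_of_nonneg_right h2 (by positivity)
        _ = |P.coeff l| * (N : ℤ) ^ (l + 1) + (x 0 : ℤ) * (|P.coeff (l + 1)| * (N : ℤ) ^ (l + 1)) := by ring
        _ ≤ 2 ^ t * (N : ℤ) ^ (t + 1) + 2 ^ t * (N : ℤ) ^ (t + 1) := add_le_add h3 h1
        _ = _ := by ring

/-- a disjoint solution gives an admissible final state -/
lemma VD_PP (k d N : ℕ) (hd : 1 ≤ d) (p : (Fin (k + d) → ℕ) × (Fin (k + d) → ℕ))
    (hp : p ∈ VD (k + d) k N) : PP d N (2 ^ (k + d + 1) * N ^ (k + d)) (MM p.1) (MM p.2) := by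
  classical
  obtain ⟨x, y⟩ := p
  rw [Pool.Agent.W154.PV.mem_VD] at hp
  obtain ⟨⟨hx, hy⟩, hs, hxy⟩ := hp
  simp only at hx hy hs hxy ⊢
  set Px : ℤ[X] := ∏ i, ((X : ℤ[X]) - C (x i : ℤ)) with hPx
  set Py : ℤ[X] := ∏ i, ((X : ℤ[X]) - C (y i : ℤ)) with hPy
  have hdeg : (Px - Py).degree < (d : WithBot ℕ) := by
    have := Pool.Agent.W346.PV.Newt.main (k + d) k x y hs
    rwa [Nat.add_sub_cancel_left] at this
  have hnat : (Px - Py).natDegree < d := by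
    by_cases h0 : Px - Py = 0
    · rw [h0, natDegree_zero]; omega
    · exact (natDegree_lt_iff_degree_lt h0).2 hdeg
  set q : Fin d → ℤ := fun l => (Px - Py).coeff l with hq
  have hev : ∀ u : ℤ, ev u q = (Px - Py).eval u := by
    intro u
    rw [ev_apply, eval_eq_sum_range' hnat, Finset.sum_range]
  have hPxe : ∀ u : ℤ, Px.eval u = ∏ i, (u - (x i : ℤ)) := by
    intro u; rw [hPx, eval_prod]; simp
  have hPye : ∀ u : ℤ, Py.eval u = ∏ i, (u - (y i : ℤ)) := by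
    intro u; rw [hPy, eval_prod]; simp
  have hxe : ∀ i, ev (x i : ℤ) q = - ∏ j, ((x i : ℤ) - (y j : ℤ)) := by
    intro i
    rw [hev, eval_sub, hPxe, hPye, Finset.prod_eq_zero (Finset.mem_univ i) (sub_self _), zero_sub]
  have hye : ∀ j, ev (y j : ℤ) q = ∏ i, ((y j : ℤ) - (x i : ℤ)) := by
    intro j
    rw [hev, eval_sub, hPxe, hPye, Finset.prod_eq_zero (s := Finset.univ)
      (f := fun i => (y j : ℤ) - (y i : ℤ)) (Finset.mem_univ j) (sub_self _), sub_zero]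
  refine ⟨q, ⟨?_, ?_⟩, ?_, ?_, ?_⟩
  · intro a ha
    obtain ⟨i, rfl⟩ := mem_MM.1 ha
    rw [MM_prod, hxe, dvd_neg]
  · intro b hb
    obtain ⟨j, rfl⟩ := mem_MM.1 hb
    rw [MM_prod, hye]
  · intro l
    have h1 := coeffb N (k + d) x (fun i => (hx i).2) l
    have h2 := coeffb N (k + d) y (fun i => (hy i).2) l
    rw [← hPx] at h1
    rw [← hPy] at h2
    have h3 : |q l| ≤ |Px.coeff l| + |Py.coeff l| := by
      rw [hq]
      simp only [coeff_sub]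
      exact abs_sub _ _
    calc |q l| * (N : ℤ) ^ (l : ℕ) ≤ (|Px.coeff l| + |Py.coeff l|) * (N : ℤ) ^ (l : ℕ) :=
          mul_le_mul_of_nonneg_right h3 (by positivity)
      _ = |Px.coeff l| * (N : ℤ) ^ (l : ℕ) + |Py.coeff l| * (N : ℤ) ^ (l : ℕ) := by ring
      _ ≤ 2 ^ (k + d) * (N : ℤ) ^ (k + d) + 2 ^ (k + d) * (N : ℤ) ^ (k + d) := add_le_add h1 h2
      _ = _ := by push_cast; ring
  · intro u hu
    obtain ⟨i, rfl⟩ := mem_MM.1 hu
    rw [hxe, neg_ne_zero, Finset.prod_ne_zero_iff]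
    intro j _
    have := hxy i j
    omega
  · intro u hu
    obtain ⟨j, rfl⟩ := mem_MM.1 hu
    rw [hye, Finset.prod_ne_zero_iff]
    intro i _
    have := hxy i j
    omega

open scoped Classical in
/-- pairs of tuples extending a state -/
noncomputable def SS (d N R0 j : ℕ) (A B : Multiset ℤ) : Finset ((Fin j → ℕ) × (Fin j → ℕ)) :=
  ((Fintype.piFinset fun _ : Fin j => Finset.Icc 1 N) ×ˢ
    (Fintype.piFinset fun _ : Fin j => Finset.Icc 1 N)).filter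
      (fun p => PP d N R0 (MM p.1 + A) (MM p.2 + B))

lemma mem_SS {d N R0 j : ℕ} {A B : Multiset ℤ} {p : (Fin j → ℕ) × (Fin j → ℕ)} :
    p ∈ SS d N R0 j A B ↔ ((∀ i, 1 ≤ p.1 i ∧ p.1 i ≤ N) ∧ (∀ i, 1 ≤ p.2 i ∧ p.2 i ≤ N)) ∧
      PP d N R0 (MM p.1 + A) (MM p.2 + B) := by
  classical
  rw [SS, Finset.mem_filter, Finset.mem_product, Fintype.mem_piFinset, Fintype.mem_piFinset]
  simp only [Finset.mem_Icc]

lemma SS_le (d N R0 : ℕ) : ∀ (j : ℕ) (A B : Multiset ℤ),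
    (SS d N R0 j A B).card ≤ cnt d N R0 (2 * j) A B := by
  classical
  intro j
  induction j with
  | zero =>
    intro A B
    by_cases hP : PP d N R0 A B
    · rw [mul_zero, cnt, if_pos hP]
      refine Finset.card_le_one.2 (fun p _ p' _ => Subsingleton.elim _ _)
    · have : SS d N R0 0 A B = ∅ := by
        rw [Finset.eq_empty_iff_forall_notMem]
        intro p hp
        have := (mem_SS.1 hp).2
        apply hP
        simpa [MM] using this
      rw [this, Finset.card_empty]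
      exact Nat.zero_le _
  | succ j ih =>
    intro A B
    have e1 : cnt d N R0 (2 * (j + 1)) A B = ∑ z ∈ Finset.Icc (1 : ℤ) N, ∑ w ∈ Finset.Icc (1 : ℤ) N,
        cnt d N R0 (2 * j) (z ::ₘ A) (w ::ₘ B) := by
      rw [show 2 * (j + 1) = (2 * j + 1) + 1 by ring, cnt]
      refine Finset.sum_congr rfl (fun z _ => ?_)
      rw [cnt]
    rw [e1, ← Finset.sum_product']
    have hmaps : ∀ p ∈ SS d N R0 (j + 1) A B, (((p.1 0 : ℕ) : ℤ), ((p.2 0 : ℕ) : ℤ)) ∈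
        (Finset.Icc (1 : ℤ) N) ×ˢ (Finset.Icc (1 : ℤ) N) := by
      intro p hp
      have h := (mem_SS.1 hp).1
      rw [Finset.mem_product, Finset.mem_Icc, Finset.mem_Icc]
      have h1 := h.1 0
      have h2 := h.2 0
      simp only
      omega
    rw [Finset.card_eq_sum_card_fiberwise (t := (Finset.Icc (1 : ℤ) N) ×ˢ (Finset.Icc (1 : ℤ) N))
      (f := fun p : (Fin (j + 1) → ℕ) × (Fin (j + 1) → ℕ) => (((p.1 0 : ℕ) : ℤ), ((p.2 0 : ℕ) : ℤ)))
      (fun p hp => hmaps p hp)]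
    apply Finset.sum_le_sum
    rintro ⟨z, w⟩ _
    refine le_trans ?_ (ih (z ::ₘ A) (w ::ₘ B))
    apply Finset.card_le_card_of_injOn (fun p : (Fin (j + 1) → ℕ) × (Fin (j + 1) → ℕ) =>
      ((Fin.tail p.1, Fin.tail p.2) : (Fin j → ℕ) × (Fin j → ℕ)))
    · intro p hp
      have hp' := Finset.mem_filter.1 (Finset.mem_coe.1 hp)
      obtain ⟨⟨h1, h2⟩, h3⟩ := mem_SS.1 hp'.1
      have h4 : ((p.1 0 : ℕ) : ℤ) = z := congrArg Prod.fst hp'.2
      have h5 : ((p.2 0 : ℕ) : ℤ) = w := congrArg Prod.snd hp'.2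
      refine Finset.mem_coe.2 (mem_SS.2 ⟨⟨fun i => h1 i.succ, fun i => h2 i.succ⟩, ?_⟩)
      rw [MM_succ, MM_succ, h4, h5] at h3
      rwa [Multiset.add_cons, Multiset.add_cons, ← Multiset.cons_add, ← Multiset.cons_add]
    · intro p hp p' hp' he
      have hp1 := (Finset.mem_filter.1 (Finset.mem_coe.1 hp)).2
      have hp2 := (Finset.mem_filter.1 (Finset.mem_coe.1 hp')).2
      have h1 : ((p.1 0 : ℕ) : ℤ) = ((p'.1 0 : ℕ) : ℤ) := (congrArg Prod.fst hp1).trans (congrArg Prod.fst hp2).symm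
      have h2 : ((p.2 0 : ℕ) : ℤ) = ((p'.2 0 : ℕ) : ℤ) := (congrArg Prod.snd hp1).trans (congrArg Prod.snd hp2).symm
      have h3 : Fin.tail p.1 = Fin.tail p'.1 := congrArg Prod.fst he
      have h4 : Fin.tail p.2 = Fin.tail p'.2 := congrArg Prod.snd he
      apply Prod.ext
      · rw [← Fin.cons_self_tail p.1, ← Fin.cons_self_tail p'.1, h3]
        congr 1
        exact_mod_cast h1
      · rw [← Fin.cons_self_tail p.2, ← Fin.cons_self_tail p'.2, h4]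
        congr 1
        exact_mod_cast h2

lemma VD_le (k d N : ℕ) (hd : 1 ≤ d) : (VD (k + d) k N).card ≤
    cnt d N (2 ^ (k + d + 1) * N ^ (k + d)) (2 * (k + d)) 0 0 := by
  refine le_trans (Finset.card_le_card ?_) (SS_le d N (2 ^ (k + d + 1) * N ^ (k + d)) (k + d) 0 0)
  intro p hp
  have h1 := VD_PP k d N hd p hp
  rw [Pool.Agent.W154.PV.mem_VD] at hp
  refine mem_SS.2 ⟨hp.1, ?_⟩
  rwa [add_zero, add_zero]

/-- the number of points of the box -/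
lemma card_GF (d t c N : ℕ) (hdt : d ≤ t) (hN : 1 ≤ N) (hc : 1 ≤ c) (L : AddSubgroup (Fin d → ℤ)) :
    (GF L N (c * N ^ t)).card ≤ (3 * c) ^ d * N ^ (∑ l : Fin d, (t - (l : ℕ))) := by
  classical
  have hsub : GF L N (c * N ^ t) ⊆ Fintype.piFinset
      (fun l : Fin d => Finset.Icc (-((c * N ^ (t - (l : ℕ)) : ℕ) : ℤ)) ((c * N ^ (t - (l : ℕ)) : ℕ) : ℤ)) := by
    intro q hq
    rw [mem_GF hN] at hq
    rw [Fintype.mem_piFinset]
    intro l
    rw [Finset.mem_Icc, ← abs_le]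
    have h1 := hq.2 l
    have h2 : (N : ℤ) ^ (t - (l : ℕ)) * (N : ℤ) ^ (l : ℕ) = (N : ℤ) ^ t := by
      rw [← pow_add]
      congr 1
      have := l.2
      omega
    have h3 : (0 : ℤ) < (N : ℤ) ^ (l : ℕ) := by positivity
    apply le_of_mul_le_mul_right _ h3
    push_cast at h1 ⊢
    rw [mul_assoc, h2]
    exact h1
  refine (Finset.card_le_card hsub).trans ?_
  rw [Fintype.card_piFinset]
  have h1 : ∀ l : Fin d, (Finset.Icc (-((c * N ^ (t - (l : ℕ)) : ℕ) : ℤ))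
      ((c * N ^ (t - (l : ℕ)) : ℕ) : ℤ)).card ≤ 3 * c * N ^ (t - (l : ℕ)) := by
    intro l
    rw [Int.card_Icc]
    have h2 : 1 ≤ c * N ^ (t - (l : ℕ)) := Nat.mul_pos hc (by positivity)
    have h3 : 3 * c * N ^ (t - (l : ℕ)) = 3 * (c * N ^ (t - (l : ℕ))) := by ring
    rw [h3]
    omega
  refine (Finset.prod_le_prod' (fun l _ => h1 l)).trans (le_of_eq ?_)
  rw [Finset.prod_mul_distrib, Finset.prod_const, Finset.card_univ, Fintype.card_fin, Finset.prod_pow_eq_pow_sum]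

lemma sumS (d k : ℕ) : ((∑ l : Fin d, (k + d - (l : ℕ)) : ℕ) : ℝ) = d * k + d * (d + 1) / 2 := by
  have : ∀ e : ℕ, e ≤ d → ((∑ l : Fin e, (k + d - (l : ℕ)) : ℕ) : ℝ) = e * (k + d) - e * (e - 1) / 2 := by
    intro e
    induction e with
    | zero => intro _; simp
    | succ e ih =>
      intro he
      rw [Fin.sum_univ_castSucc, Nat.cast_add]
      simp only [Fin.val_castSucc, Fin.val_last]
      rw [ih (by omega), Nat.cast_sub (by omega)]
      push_cast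
      ring
  rw [this d le_rfl]
  ring

/-- disjoint solutions, with a parameter -/
theorem vd_n (k d n : ℕ) (hd : 1 ≤ d) (hn : 1 ≤ n) (ε : ℝ) (hε : 0 < ε) :
    ∃ C : ℝ, 0 < C ∧ ∀ N : ℕ, 1 ≤ N → ((VD (k + d) k N).card : ℝ) ≤
      C * (N : ℝ) ^ ((n : ℝ) + ((d : ℝ) * k + d * (d - 1) / 2 + 1) / n + ((d : ℝ) - 1) + ε) := by
  have hn0 : (0 : ℝ) < n := by exact_mod_cast hn
  have h1n : (1 : ℝ) / n ≤ 1 := by
    rw [div_le_one hn0]; exact_mod_cast hn
  obtain ⟨C, hC, h⟩ := main hd (k + d) (2 ^ (k + d + 1)) n hn (2 * (k + d)) 0 0 ε hε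
  set c : ℕ := (d + 1) ^ (2 * (k + d)) * 2 ^ (k + d + 1) with hc
  have hc1 : 1 ≤ c := Nat.one_le_iff_ne_zero.2 (by positivity)
  refine ⟨C * (((3 * c : ℕ) : ℝ) ^ d) ^ ((1 : ℝ) / n), by positivity, fun N hN => ?_⟩
  have hNr : (1 : ℝ) ≤ N := by exact_mod_cast hN
  have hN0 : (0 : ℝ) < N := by linarith
  have h1 := h N hN 0 0 (Multiset.card_zero) (Multiset.card_zero) (by simp) (by simp)
  have hR : (d + 1) ^ (2 * (k + d)) * (2 ^ (k + d + 1) * N ^ (k + d)) = c * N ^ (k + d) := by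
    rw [hc]; ring
  rw [hR] at h1
  have h2 : ((VD (k + d) k N).card : ℝ) ≤
      (cnt d N (2 ^ (k + d + 1) * N ^ (k + d)) (2 * (k + d)) 0 0 : ℝ) := by
    exact_mod_cast VD_le k d N hd
  refine h2.trans (h1.trans ?_)
  set X : ℝ := (N : ℝ) ^ (1 - (1 : ℝ) / n) with hX
  have hX1 : 1 ≤ X := Real.one_le_rpow hNr (by linarith)
  have h3 : X ^ (rk (Lat d 0 0) N (c * N ^ (k + d)) - 1) ≤ (N : ℝ) ^ ((1 - (1 : ℝ) / n) * ((d : ℝ) - 1)) := by
    calc X ^ (rk (Lat d 0 0) N (c * N ^ (k + d)) - 1) ≤ X ^ (d - 1) :=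
          pow_le_pow_right₀ hX1 (Nat.sub_le_sub_right (rk_le _ _ _) 1)
      _ = _ := by
          rw [hX, ← Real.rpow_natCast, ← Real.rpow_mul hN0.le, Nat.cast_sub hd, Nat.cast_one]
  have h4 : ((GF (Lat d 0 0) N (c * N ^ (k + d))).card : ℝ) ^ ((1 : ℝ) / n) ≤
      (((3 * c : ℕ) : ℝ) ^ d) ^ ((1 : ℝ) / n) * (N : ℝ) ^ (((d : ℝ) * k + d * (d + 1) / 2) * (1 / n)) := by
    have h5 : ((GF (Lat d 0 0) N (c * N ^ (k + d))).card : ℝ) ≤
        ((3 * c : ℕ) : ℝ) ^ d * (N : ℝ) ^ ((d : ℝ) * k + d * (d + 1) / 2) := by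
      have h6 := card_GF d (k + d) c N (by omega) hN hc1 (Lat d 0 0)
      have h7 : ((GF (Lat d 0 0) N (c * N ^ (k + d))).card : ℝ) ≤
          ((3 * c : ℕ) : ℝ) ^ d * (N : ℝ) ^ (∑ l : Fin d, (k + d - (l : ℕ))) := by exact_mod_cast h6
      rw [← Real.rpow_natCast (N : ℝ), sumS] at h7
      exact h7
    refine (Real.rpow_le_rpow (by positivity) h5 (by positivity)).trans (le_of_eq ?_)
    rw [Real.mul_rpow (by positivity) (by positivity), ← Real.rpow_mul hN0.le]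
  have h5 : EE n (2 * (k + d)) 0 0 ≤ n := by
    have := (EE_le n hn (2 * (k + d)) 0).1
    rw [Nat.sub_zero] at this
    refine this.trans (le_of_eq ?_)
    field_simp
  have h6 : (N : ℝ) ^ (EE n (2 * (k + d)) 0 0 + ε) ≤ (N : ℝ) ^ ((n : ℝ) + ε) :=
    Real.rpow_le_rpow_of_exponent_le hNr (by linarith)
  calc C * (N : ℝ) ^ (EE n (2 * (k + d)) 0 0 + ε) *
        (X ^ (rk (Lat d 0 0) N (c * N ^ (k + d)) - 1) *
          ((GF (Lat d 0 0) N (c * N ^ (k + d))).card : ℝ) ^ ((1 : ℝ) / n))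
      ≤ C * (N : ℝ) ^ ((n : ℝ) + ε) * ((N : ℝ) ^ ((1 - (1 : ℝ) / n) * ((d : ℝ) - 1)) *
          ((((3 * c : ℕ) : ℝ) ^ d) ^ ((1 : ℝ) / n) * (N : ℝ) ^ (((d : ℝ) * k + d * (d + 1) / 2) * (1 / n)))) := by
        apply mul_le_mul (mul_le_mul_of_nonneg_left h6 hC.le) _ (by positivity) (by positivity)
        exact mul_le_mul h3 h4 (by positivity) (by positivity)
    _ = C * (((3 * c : ℕ) : ℝ) ^ d) ^ ((1 : ℝ) / n) * ((N : ℝ) ^ ((n : ℝ) + ε) *
          (N : ℝ) ^ ((1 - (1 : ℝ) / n) * ((d : ℝ) - 1)) *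
            (N : ℝ) ^ (((d : ℝ) * k + d * (d + 1) / 2) * (1 / n))) := by ring
    _ = _ := by
        rw [← Real.rpow_add hN0, ← Real.rpow_add hN0]
        congr 2
        field_simp
        ring

/-- disjoint solutions -/
theorem vd_sqrt (k d : ℕ) (hd : 1 ≤ d) (ε : ℝ) (hε : 0 < ε) :
    ∃ C : ℝ, 0 < C ∧ ∀ N : ℕ, 1 ≤ N → ((VD (k + d) k N).card : ℝ) ≤
      C * (N : ℝ) ^ (Real.sqrt (4 * (d : ℝ) * k + 2 * d * (d - 1) + 5) + ((d : ℝ) - 1) + ε) := by
  -- the integer `S = d k + d (d-1)/2 + 1`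
  obtain ⟨e, rfl⟩ : ∃ e, d = e + 1 := ⟨d - 1, by omega⟩
  obtain ⟨f, hf⟩ : ∃ f, (e + 1) * e = 2 * f := (Nat.even_mul_succ_self e).two_dvd.imp (fun f hf => by
    rw [mul_comm, hf])
  set B : ℕ := (e + 1) * k + f + 1 with hB
  have hBr : (B : ℝ) = ((e + 1 : ℕ) : ℝ) * k + ((e + 1 : ℕ) : ℝ) * (((e + 1 : ℕ) : ℝ) - 1) / 2 + 1 := by
    have hf' : ((e : ℝ) + 1) * e = 2 * f := by exact_mod_cast hf
    rw [hB]
    push_cast
    linarith
  obtain ⟨n, hn1, hn2, hn0⟩ : ∃ n : ℕ, B ≤ n * (n + 1) ∧ n * (n - 1) ≤ B ∧ 1 ≤ n := by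
    have hex : ∃ n : ℕ, B ≤ n * (n + 1) := ⟨B, by nlinarith⟩
    refine ⟨Nat.find hex, Nat.find_spec hex, ?_, ?_⟩
    · rcases Nat.eq_zero_or_pos (Nat.find hex) with h | h
      · rw [h]; simp
      · have := Nat.find_min hex (Nat.sub_lt h one_pos)
        have e2 : Nat.find hex - 1 + 1 = Nat.find hex := Nat.sub_add_cancel h
        rw [e2] at this
        rw [mul_comm]
        omega
    · rcases Nat.eq_zero_or_pos (Nat.find hex) with h | h
      · have := Nat.find_spec hex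
        rw [h] at this
        omega
      · exact h
  obtain ⟨C, hC, h⟩ := vd_n k (e + 1) n hd hn0 ε hε
  refine ⟨C, hC, fun N hN => (h N hN).trans ?_⟩
  apply mul_le_mul_of_nonneg_left _ hC.le
  apply Real.rpow_le_rpow_of_exponent_le (by exact_mod_cast hN)
  rw [← hBr]
  have hnr : (0 : ℝ) < n := by exact_mod_cast hn0
  have h2 : (n : ℝ) + (B : ℝ) / n ≤
      Real.sqrt (4 * ((e + 1 : ℕ) : ℝ) * k + 2 * ((e + 1 : ℕ) : ℝ) * (((e + 1 : ℕ) : ℝ) - 1) + 5) := by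
    apply Real.le_sqrt_of_sq_le
    have h3 : 4 * ((e + 1 : ℕ) : ℝ) * k + 2 * ((e + 1 : ℕ) : ℝ) * (((e + 1 : ℕ) : ℝ) - 1) + 5 = 4 * B + 1 := by
      rw [hBr]; ring
    rw [h3]
    have h4 : (B : ℝ) ≤ n * (n + 1) := by exact_mod_cast hn1
    have h5 : (n : ℝ) * (n - 1) ≤ B := by
      have : ((n * (n - 1) : ℕ) : ℝ) ≤ (B : ℝ) := by exact_mod_cast hn2
      rw [Nat.cast_mul, Nat.cast_sub hn0, Nat.cast_one] at this
      exact this
    have h6 : ((n : ℝ) - (B : ℝ) / n) ^ 2 ≤ 1 := by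
      rw [sq_le_one_iff_abs_le_one, abs_le]
      constructor
      · have : (B : ℝ) / n ≤ n + 1 := by
          rw [div_le_iff₀ hnr]; linarith
        linarith
      · have : (n : ℝ) - 1 ≤ (B : ℝ) / n := by
          rw [le_div_iff₀ hnr]; linarith
        linarith
    have h7 : (n : ℝ) * ((B : ℝ) / n) = B := by field_simp
    nlinarith
  linarith

/-- non-diagonal solutions -/
theorem nondiag (s k : ℕ) (ε : ℝ) (hε : 0 < ε) :
    ∃ C : ℝ, 0 ≤ C ∧ ∀ N : ℕ, 1 ≤ N → ((VN s k N).card : ℝ) ≤ C * (N : ℝ) ^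
      (Real.sqrt (4 * ((s : ℝ) - k) * k + 2 * ((s : ℝ) - k) * ((s : ℝ) - k - 1) + 5)
        + ((s : ℝ) - k - 1) + ε) := by
  apply Pool.Agent.TH900.VPS.vn_bound (Pool.Agent.W156.PVRED.main Pool.Agent.W346.PV.Newt.main)
  intro d hd hds
  obtain ⟨C, hC, h⟩ := vd_sqrt k d hd ε hε
  refine ⟨C, hC, fun N hN => (h N hN).trans ?_⟩
  apply mul_le_mul_of_nonneg_left _ hC.le
  apply Real.rpow_le_rpow_of_exponent_le (by exact_mod_cast hN)
  have hds' : (k : ℝ) + d ≤ s := by exact_mod_cast hds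
  have hd' : (1 : ℝ) ≤ d := by exact_mod_cast hd
  have hk0 : (0 : ℝ) ≤ k := by positivity
  have h4 : Real.sqrt (4 * (d : ℝ) * k + 2 * d * (d - 1) + 5) ≤
      Real.sqrt (4 * ((s : ℝ) - k) * k + 2 * ((s : ℝ) - k) * ((s : ℝ) - k - 1) + 5) := by
    apply Real.sqrt_le_sqrt
    have e1 : (d : ℝ) ≤ (s : ℝ) - k := by linarith
    have e2 : (d : ℝ) * k ≤ ((s : ℝ) - k) * k := mul_le_mul_of_nonneg_right e1 hk0
    have e3 : (d : ℝ) * (d - 1) ≤ ((s : ℝ) - k) * ((s : ℝ) - k - 1) :=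
      mul_le_mul e1 (by linarith) (by linarith) (by linarith)
    linarith
  linarith

end Pool.Agent.T2H72.VMV
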