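import Pool.Agent.T2H72.VMV.Sums

/-! # One step of the recursion -/

set_option autoImplicit false

namespace Pool.Agent.T2H72.VMV

open Finset

variable {d : ℕ}

/-- coefficient vectors `q` with `∏_{b ∈ B} (a - b) ∣ q(a)` for `a ∈ A` and `∏_{a ∈ A} (b - a) ∣ q(b)` for `b ∈ B` -/
def Lat (d : ℕ) (A B : Multiset ℤ) : AddSubgroup (Fin d → ℤ) where
  carrier := {q | (∀ a ∈ A, (B.map (fun b => a - b)).prod ∣ ev a q) ∧
    (∀ b ∈ B, (A.map (fun a => b - a)).prod ∣ ev b q)}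
  zero_mem' := ⟨fun a _ => by rw [map_zero]; exact dvd_zero _,
    fun b _ => by rw [map_zero]; exact dvd_zero _⟩
  add_mem' := by
    rintro u v ⟨h1, h2⟩ ⟨h3, h4⟩
    exact ⟨fun a ha => by rw [map_add]; exact dvd_add (h1 a ha) (h3 a ha),
      fun b hb => by rw [map_add]; exact dvd_add (h2 b hb) (h4 b hb)⟩
  neg_mem' := by
    rintro u ⟨h1, h2⟩
    exact ⟨fun a ha => by rw [map_neg, dvd_neg]; exact h1 a ha,
      fun b hb => by rw [map_neg, dvd_neg]; exact h2 b hb⟩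

lemma mem_Lat {A B : Multiset ℤ} {q : Fin d → ℤ} : q ∈ Lat d A B ↔
    (∀ a ∈ A, (B.map (fun b => a - b)).prod ∣ ev a q) ∧
    (∀ b ∈ B, (A.map (fun a => b - a)).prod ∣ ev b q) := Iff.rfl

/-- the state after one step lies in the previous one -/
lemma Lat_step (A B : Multiset ℤ) (z : ℤ) : Lat d B (z ::ₘ A) ≤ Lat d A B := by
  intro q hq
  rw [mem_Lat] at hq ⊢
  refine ⟨fun a ha => hq.2 a (Multiset.mem_cons_of_mem ha), fun b hb => ?_⟩
  have := hq.1 b hb
  rw [Multiset.map_cons, Multiset.prod_cons] at this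
  exact dvd_of_mul_left_dvd this

/-- the property of admissible states -/
def PP (d N R0 : ℕ) (A B : Multiset ℤ) : Prop :=
  ∃ q : Fin d → ℤ, q ∈ Lat d A B ∧ bx N R0 q ∧ (∀ u ∈ A, ev u q ≠ 0) ∧ (∀ u ∈ B, ev u q ≠ 0)

lemma PP_step {N R0 : ℕ} {A B : Multiset ℤ} {z : ℤ} (h : PP d N R0 B (z ::ₘ A)) : PP d N R0 A B := by
  obtain ⟨q, h1, h2, h3, h4⟩ := h
  exact ⟨q, Lat_step A B z h1, h2, fun u hu => h4 u (Multiset.mem_cons_of_mem hu), h3⟩

lemma PP_ne {N R0 : ℕ} {A B : Multiset ℤ} {z : ℤ} (h : PP d N R0 B (z ::ₘ A)) : ∀ u ∈ B, u ≠ z := by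
  obtain ⟨q, h1, h2, h3, h4⟩ := h
  intro u hu he
  have h5 := (mem_Lat.1 h1).1 u hu
  rw [Multiset.map_cons, Multiset.prod_cons, he, sub_self, zero_mul, zero_dvd_iff] at h5
  exact h3 u hu (by rw [he]; exact h5)

lemma bx_mono {N R R' : ℕ} (h : R ≤ R') {q : Fin d → ℤ} (hq : bx N R q) : bx N R' q := fun l =>
  (hq l).trans (by exact_mod_cast h)

lemma GF_mono {L L' : AddSubgroup (Fin d → ℤ)} (hL : L' ≤ L) {N R R' : ℕ} (hN : 1 ≤ N) (h : R ≤ R') :
    GF L' N R ⊆ GF L N R' := by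
  intro q hq
  rw [mem_GF hN] at hq ⊢
  exact ⟨hL hq.1, bx_mono h hq.2⟩

lemma WW_mono {L L' : AddSubgroup (Fin d → ℤ)} (hL : L' ≤ L) {N R R' : ℕ} (hN : 1 ≤ N) (h : R ≤ R') :
    WW L' N R ≤ WW L N R' :=
  Submodule.span_mono (Set.image_mono (by exact_mod_cast GF_mono hL hN h))

lemma mem_WW {L : AddSubgroup (Fin d → ℤ)} {N R : ℕ} (hN : 1 ≤ N) {q : Fin d → ℤ} (h1 : q ∈ L)
    (h2 : bx N R q) : toQ q ∈ WW L N R :=
  Submodule.subset_span ⟨q, by exact_mod_cast (mem_GF hN).2 ⟨h1, h2⟩, rfl⟩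

lemma ev_bound {N R : ℕ} {q : Fin d → ℤ} (hq : bx N R q) {u : ℤ} (h0 : 0 ≤ u) (hu : u ≤ N) :
    |ev u q| ≤ d * R := by
  rw [ev_apply]
  refine (Finset.abs_sum_le_sum_abs _ _).trans ?_
  have h1 : ∀ l ∈ (Finset.univ : Finset (Fin d)), |q l * u ^ (l : ℕ)| ≤ R := by
    intro l _
    rw [abs_mul, abs_of_nonneg (pow_nonneg h0 _)]
    refine le_trans ?_ (hq l)
    exact mul_le_mul_of_nonneg_left (pow_le_pow_left₀ h0 hu _) (abs_nonneg _)
  refine (Finset.sum_le_sum h1).trans ?_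
  simp

lemma ev_congr (q : Fin d → ℤ) (u z : ℤ) : z - u ∣ ev z q - ev u q := by
  rw [ev_apply, ev_apply, ← Finset.sum_sub_distrib]
  refine Finset.dvd_sum (fun l _ => ?_)
  rw [← mul_sub]
  exact Dvd.dvd.mul_left (sub_dvd_pow_sub_pow z u _) _

/-- rank -/
noncomputable def rk (L : AddSubgroup (Fin d → ℤ)) (N R : ℕ) : ℕ := Module.finrank ℚ (WW L N R)

lemma rk_le (L : AddSubgroup (Fin d → ℤ)) (N R : ℕ) : rk L N R ≤ d := by
  have := Submodule.finrank_le (WW L N R)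
  simpa [rk] using this

lemma rk_pos {N R0 R : ℕ} (hN : 1 ≤ N) (hR : R0 ≤ R) {A B : Multiset ℤ} (h : PP d N R0 A B)
    (hne : A ≠ 0 ∨ B ≠ 0) : 1 ≤ rk (Lat d A B) N R := by
  obtain ⟨q, h1, h2, h3, h4⟩ := h
  have hq0 : q ≠ 0 := by
    rintro rfl
    rcases hne with hA | hB
    · obtain ⟨u, hu⟩ := Multiset.exists_mem_of_ne_zero hA
      exact h3 u hu (map_zero _)
    · obtain ⟨u, hu⟩ := Multiset.exists_mem_of_ne_zero hB
      exact h4 u hu (map_zero _)
  have hm := mem_WW hN h1 (bx_mono hR h2)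
  have hne : WW (Lat d A B) N R ≠ ⊥ := by
    intro hbot
    rw [hbot, Submodule.mem_bot] at hm
    apply hq0
    funext l
    have := congrFun hm l
    simpa [toQ] using this
  unfold rk
  by_contra hcon
  have h0 : Module.finrank ℚ (WW (Lat d A B) N R) = 0 := by omega
  exact hne (Submodule.finrank_eq_zero.1 h0)

/-- the greatest common divisor of a product -/
lemma gcd_prod_dvd (S : Multiset ℕ) (D : ℕ) : Nat.gcd D S.prod ∣ (S.map (fun s => Nat.gcd D s)).prod := by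
  induction S using Multiset.induction_on with
  | empty => simp
  | cons a S ih =>
    rw [Multiset.prod_cons, Multiset.map_cons, Multiset.prod_cons]
    exact (Nat.gcd_mul_right_dvd_mul_gcd D a S.prod).trans (Nat.mul_dvd_mul_left _ ih)

lemma prod_split (S : Multiset ℕ) (D : ℕ) :
    (S.map (fun s => Nat.gcd D s)).prod * (S.map (fun s => s / Nat.gcd D s)).prod = S.prod := by
  rw [← Multiset.prod_map_mul]
  congr 1
  conv_rhs => rw [← Multiset.map_id S]
  apply Multiset.map_congr rfl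
  intro s _
  exact Nat.mul_div_cancel' (Nat.gcd_dvd_right D s)

/-- the index condition -/
lemma index (B : Multiset ℤ) (z : ℤ) (hz : ∀ u ∈ B, u ≠ z) (D : ℕ) (a : ℤ)
    (h : (B.map (fun u => z - u)).prod ∣ a * D)
    (ha : |a| < (((B.map (fun u => (z - u).natAbs)).map (fun s => s / Nat.gcd D s)).prod : ℕ)) : a = 0 := by
  set S : Multiset ℕ := B.map (fun u => (z - u).natAbs) with hS
  have hSpos : 0 < S.prod := by
    rw [Nat.pos_iff_ne_zero, Ne, Multiset.prod_eq_zero_iff, hS, Multiset.mem_map]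
    rintro ⟨u, hu, h0⟩
    exact hz u hu (by rw [Int.natAbs_eq_zero] at h0; omega)
  have h1 : ((B.map (fun u => z - u)).prod).natAbs = S.prod := by
    rw [hS]
    clear ha h hz hSpos hS
    induction B using Multiset.induction_on with
    | empty => simp
    | cons b B ih => simp only [Multiset.map_cons, Multiset.prod_cons, Int.natAbs_mul, ih]
  have h2 : S.prod ∣ a.natAbs * D := by
    have := Int.natAbs_dvd_natAbs.2 h
    rwa [h1, Int.natAbs_mul, Int.natAbs_natCast] at this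
  by_contra hne
  have ha0 : 0 < a.natAbs := Int.natAbs_pos.2 hne
  -- S.prod ∣ a * gcd D S.prod
  have h3 : S.prod ∣ a.natAbs * Nat.gcd D S.prod := by
    rw [← Nat.gcd_mul_left]
    exact Nat.dvd_gcd h2 (Dvd.intro_left _ rfl)
  have h4 : S.prod ∣ a.natAbs * (S.map (fun s => Nat.gcd D s)).prod :=
    h3.trans (Nat.mul_dvd_mul_left _ (gcd_prod_dvd S D))
  rw [← prod_split S D, mul_comm] at h4
  have h5 : 0 < (S.map (fun s => Nat.gcd D s)).prod := by
    rw [← prod_split S D] at hSpos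
    exact Nat.pos_of_mul_pos_right hSpos
  have h6 := Nat.dvd_of_mul_dvd_mul_right h5 h4
  have h7 := Nat.le_of_dvd ha0 h6
  have h8 : |a| = (a.natAbs : ℤ) := Int.abs_eq_natAbs a
  rw [h8] at ha
  have h9 : a.natAbs < (S.map (fun s => s / Nat.gcd D s)).prod := by exact_mod_cast ha
  omega

end Pool.Agent.T2H72.VMV
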