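import Pool.Agent.T2H72.VMV.Lat
import Pool.Agent.Helper112.Arith

/-! # Arithmetic lemmas for the recursion -/

set_option autoImplicit false

namespace Pool.Agent.T2H72.VMV

open Finset

/-- `(n - j)_+ / n` -/
noncomputable def ff (n j : ℕ) : ℝ := ((n - j : ℕ) : ℝ) / n

lemma ff_nonneg (n j : ℕ) : 0 ≤ ff n j := by unfold ff; positivity

/-- `E n m a b` : the exponent gained in `m` steps from a state with `a`, `b` variables -/
noncomputable def EE (n : ℕ) : ℕ → ℕ → ℕ → ℝ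
  | 0, _, _ => 0
  | m + 1, a, b => ff n b + EE n m b (a + 1)

lemma EE_le (n : ℕ) (hn : 1 ≤ n) : ∀ m j : ℕ,
    EE n m j j ≤ ((n - j : ℕ) : ℝ) ^ 2 / n ∧
      EE n m j (j + 1) ≤ ((n - j : ℕ) : ℝ) * ((n - (j + 1) : ℕ) : ℝ) / n := by
  have hn0 : (0 : ℝ) < n := by exact_mod_cast hn
  intro m
  induction m with
  | zero =>
    intro j
    simp only [EE]
    constructor <;> positivity
  | succ m ih =>
    intro j
    simp only [EE]
    constructor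
    · have h1 := (ih j).2
      have h2 : ff n j + ((n - j : ℕ) : ℝ) * ((n - (j + 1) : ℕ) : ℝ) / n = ((n - j : ℕ) : ℝ) ^ 2 / n := by
        unfold ff
        rcases Nat.lt_or_ge j n with h | h
        · have h3 : (n - (j + 1) : ℕ) + 1 = n - j := by omega
          have h4 : ((n - (j + 1) : ℕ) : ℝ) = ((n - j : ℕ) : ℝ) - 1 := by
            rw [← h3]; push_cast; ring
          rw [h4]; ring
        · have h3 : n - j = 0 := by omega
          rw [h3]; simp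
      linarith
    · have h1 := (ih (j + 1)).1
      have h2 : ff n (j + 1) + ((n - (j + 1) : ℕ) : ℝ) ^ 2 / n ≤
          ((n - j : ℕ) : ℝ) * ((n - (j + 1) : ℕ) : ℝ) / n := by
        unfold ff
        rcases Nat.lt_or_ge j n with h | h
        · have h3 : (n - (j + 1) : ℕ) + 1 = n - j := by omega
          have h4 : ((n - j : ℕ) : ℝ) = ((n - (j + 1) : ℕ) : ℝ) + 1 := by
            rw [← h3]; push_cast; ring
          rw [h4]
          apply le_of_eq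
          ring
        · have h3 : n - (j + 1) = 0 := by omega
          rw [h3]; simp
      linarith

/-- divisor bound for integers bounded by `K N^t` -/
lemma divb (K t : ℕ) (ε : ℝ) (hε : 0 < ε) : ∃ C : ℝ, 0 < C ∧ ∀ N : ℕ, 1 ≤ N → ∀ n : ℕ, 1 ≤ n →
    n ≤ K * N ^ t → (n.divisors.card : ℝ) ≤ C * (N : ℝ) ^ ε := by
  obtain ⟨C, hC, h⟩ := Pool.Agent.Helper112.divisor_bound (ε / (t + 1)) (by positivity)
  refine ⟨C * ((K : ℝ) + 1) ^ (ε / (t + 1)), by positivity, fun N hN n hn hnK => (h n hn).trans ?_⟩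
  have hNr : (1 : ℝ) ≤ N := by exact_mod_cast hN
  rw [mul_assoc]
  apply mul_le_mul_of_nonneg_left _ hC.le
  have e1 : (N : ℝ) ^ ε = ((N : ℝ) ^ (t + 1)) ^ (ε / (t + 1)) := by
    rw [← Real.rpow_natCast, ← Real.rpow_mul (by positivity)]
    congr 1
    push_cast
    field_simp
  rw [e1, ← Real.mul_rpow (by positivity) (by positivity)]
  apply Real.rpow_le_rpow (by positivity) _ (by positivity)
  have h1 : (n : ℝ) ≤ K * (N : ℝ) ^ t := by exact_mod_cast hnK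
  have h2 : (N : ℝ) ^ t ≤ (N : ℝ) ^ (t + 1) := pow_le_pow_right₀ hNr (by omega)
  have h3 : (0 : ℝ) ≤ (N : ℝ) ^ (t + 1) := by positivity
  have h4 : (0 : ℝ) ≤ K := by positivity
  nlinarith

/-- `∑_{v ≤ N} v^(-b/n) ≤ C N^(ff n b + ε)` -/
lemma sumv (n b : ℕ) (hn : 1 ≤ n) (ε : ℝ) (hε : 0 < ε) : ∃ C : ℝ, 0 < C ∧ ∀ N : ℕ, 1 ≤ N →
    ∑ v ∈ Finset.Icc 1 N, ((v : ℝ) ^ (-((b : ℝ) / n))) ≤ C * (N : ℝ) ^ (ff n b + ε) := by
  refine ⟨1 + 1 / ε, by positivity, fun N hN => ?_⟩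
  have hNr : (1 : ℝ) ≤ N := by exact_mod_cast hN
  have hN0 : (0 : ℝ) < N := by linarith
  have hn0 : (0 : ℝ) < n := by exact_mod_cast hn
  have h1 : ∀ v ∈ Finset.Icc 1 N, ((v : ℝ) ^ (-((b : ℝ) / n))) ≤ (N : ℝ) ^ (ff n b) * (v : ℝ)⁻¹ := by
    intro v hv
    rw [Finset.mem_Icc] at hv
    have hv1 : (1 : ℝ) ≤ v := by exact_mod_cast hv.1
    have hv2 : (v : ℝ) ≤ N := by exact_mod_cast hv.2
    have hv0 : (0 : ℝ) < v := by linarith
    have h2 : -((b : ℝ) / n) ≤ ff n b + (-1) := by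
      unfold ff
      have h3 : (n : ℝ) - b ≤ ((n - b : ℕ) : ℝ) := by
        rw [sub_le_iff_le_add]
        exact_mod_cast (by omega : n ≤ n - b + b)
      have h4 : ((n : ℝ) - b) / n ≤ ((n - b : ℕ) : ℝ) / n := div_le_div_of_nonneg_right h3 hn0.le
      have h5 : ((n : ℝ) - b) / n = 1 - b / n := by field_simp
      linarith
    calc ((v : ℝ) ^ (-((b : ℝ) / n))) ≤ (v : ℝ) ^ (ff n b + (-1)) :=
          Real.rpow_le_rpow_of_exponent_le hv1 h2
      _ = (v : ℝ) ^ (ff n b) * (v : ℝ)⁻¹ := by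
          rw [Real.rpow_add hv0, Real.rpow_neg_one]
      _ ≤ (N : ℝ) ^ (ff n b) * (v : ℝ)⁻¹ := by
          apply mul_le_mul_of_nonneg_right _ (by positivity)
          exact Real.rpow_le_rpow hv0.le hv2 (ff_nonneg _ _)
  have h2 : ∑ v ∈ Finset.Icc 1 N, ((v : ℝ)⁻¹) ≤ 1 + Real.log N := by
    have := harmonic_le_one_add_log N
    rw [harmonic_eq_sum_Icc] at this
    push_cast at this
    exact this
  have h3 : Real.log N ≤ (N : ℝ) ^ ε / ε := Real.log_le_rpow_div hN0.le hε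
  have h4 : (1 : ℝ) ≤ (N : ℝ) ^ ε := Real.one_le_rpow hNr hε.le
  calc ∑ v ∈ Finset.Icc 1 N, ((v : ℝ) ^ (-((b : ℝ) / n)))
      ≤ ∑ v ∈ Finset.Icc 1 N, (N : ℝ) ^ (ff n b) * (v : ℝ)⁻¹ := Finset.sum_le_sum h1
    _ = (N : ℝ) ^ (ff n b) * ∑ v ∈ Finset.Icc 1 N, (v : ℝ)⁻¹ := by rw [Finset.mul_sum]
    _ ≤ (N : ℝ) ^ (ff n b) * ((1 + 1 / ε) * (N : ℝ) ^ ε) := by
        apply mul_le_mul_of_nonneg_left _ (by positivity)
        refine h2.trans ?_
        have : (1 + 1 / ε) * (N : ℝ) ^ ε = (N : ℝ) ^ ε + (N : ℝ) ^ ε / ε := by ring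
        rw [this]
        linarith
    _ = (1 + 1 / ε) * (N : ℝ) ^ (ff n b + ε) := by
        rw [Real.rpow_add hN0]; ring

/-- a power mean inequality -/
lemma holder {ι : Type*} (S : Finset ι) (g : ι → ℝ) (hg : ∀ i ∈ S, 0 ≤ g i) (n : ℕ) (hn : 1 ≤ n)
    (N : ℝ) (hN : (S.card : ℝ) ≤ N) :
    ∑ i ∈ S, (g i) ^ ((1 : ℝ) / n) ≤ N ^ (1 - (1 : ℝ) / n) * (∑ i ∈ S, g i) ^ ((1 : ℝ) / n) := by
  have hn0 : (0 : ℝ) < n := by exact_mod_cast hn
  have hN0 : 0 ≤ N := le_trans (by positivity) hN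
  obtain ⟨m, rfl⟩ : ∃ m, n = m + 1 := ⟨n - 1, by omega⟩
  set a : ι → ℝ := fun i => (g i) ^ ((1 : ℝ) / ((m + 1 : ℕ) : ℝ)) with ha
  have ha0 : ∀ i ∈ S, 0 ≤ a i := fun i hi => Real.rpow_nonneg (hg i hi) _
  have hpow : ∀ i ∈ S, a i ^ (m + 1) = g i := by
    intro i hi
    rw [ha]
    simp only
    rw [← Real.rpow_natCast, ← Real.rpow_mul (hg i hi), one_div, inv_mul_cancel₀ hn0.ne', Real.rpow_one]
  have h1 : (∑ i ∈ S, a i) ^ (m + 1) ≤ (S.card : ℝ) ^ m * ∑ i ∈ S, a i ^ (m + 1) := by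
    rcases S.eq_empty_or_nonempty with h | h
    · subst h; simp
    · have h5 := pow_sum_div_card_le_sum_pow ha0 m
      have h6 : (0 : ℝ) < (S.card : ℝ) ^ m := by
        have : 0 < S.card := h.card_pos
        positivity
      rw [div_le_iff₀ h6] at h5
      linarith
  have h2 : (∑ i ∈ S, a i) ^ (m + 1) ≤ N ^ m * ∑ i ∈ S, g i := by
    refine h1.trans ?_
    rw [Finset.sum_congr rfl hpow]
    apply mul_le_mul_of_nonneg_right _ (Finset.sum_nonneg hg)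
    exact pow_le_pow_left₀ (by positivity) hN m
  have h3 : 0 ≤ ∑ i ∈ S, a i := Finset.sum_nonneg ha0
  have hsg : 0 ≤ ∑ i ∈ S, g i := Finset.sum_nonneg hg
  calc ∑ i ∈ S, a i = ((∑ i ∈ S, a i) ^ (m + 1)) ^ ((1 : ℝ) / ((m + 1 : ℕ) : ℝ)) := by
        rw [← Real.rpow_natCast, ← Real.rpow_mul h3, one_div, mul_inv_cancel₀ hn0.ne', Real.rpow_one]
    _ ≤ (N ^ m * ∑ i ∈ S, g i) ^ ((1 : ℝ) / ((m + 1 : ℕ) : ℝ)) :=
        Real.rpow_le_rpow (by positivity) h2 (by positivity)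
    _ = N ^ (1 - (1 : ℝ) / ((m + 1 : ℕ) : ℝ)) * (∑ i ∈ S, g i) ^ ((1 : ℝ) / ((m + 1 : ℕ) : ℝ)) := by
        rw [Real.mul_rpow (by positivity) hsg, ← Real.rpow_natCast, ← Real.rpow_mul hN0]
        congr 2
        push_cast
        field_simp
        ring

end Pool.Agent.T2H72.VMV
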